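import Mathlib

/-!
# No C¹ retraction of the closed ball onto the sphere (Milnor-Rogers proof)

Proof sketch (E = EuclideanSpace ℝ (Fin m), B = closedBall 0 1). Let `g = f - id`, `g_t x = x + t • g x`.
* `g` is C¹ on a neighbourhood of the compact convex set `B`, hence Lipschitz on `B` with some constant `C`.
  For `0 ≤ t < 1/C` the map `g_t` is injective on `B`, and its derivative `1 + t g'(x)` is invertible
  (norm of `t g'(x)` is `< 1`), so `det (1 + t g'(x)) > 0` (it is `1` at `t = 0` and never zero).
* `g_t` maps `B` to `B`, `ball` to `ball` (`‖g_t x‖ ≤ (1-t)‖x‖ + t < 1`), and is the identity on the sphere.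
  `g_t '' ball` is open (inverse function theorem) and closed in `ball` (compactness of `B`), so it is the
  whole `ball` by connectedness.
* change of variables `MeasureTheory.lintegral_abs_det_fderiv_eq_addHaar_image`:
  `∫_{ball} det (1 + t g'(x)) dx = vol ball` for small `t ≥ 0`.
* the left side `P t` is a polynomial in `t` (integrate the coefficients of `det (1 + t A)`,
  which are continuous in `A`), hence constant; so `P 1 = vol ball > 0`.
* but `1 + g'(x) = f'(x)` has determinant `0` for `x ∈ ball`, because `‖f x‖² = 1` near `x` gives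
  `⟪f x, f'(x) v⟫ = 0` for all `v`, so `f'(x)` is not surjective. Contradiction.
-/

open Metric Set

namespace MPd0c340

section aux

variable {E : Type*} [NormedAddCommGroup E] [InnerProductSpace ℝ E] [FiniteDimensional ℝ E]

/-- `det (1 + t A)` is a polynomial in `t` of degree at most `dim E`. -/
lemma exists_poly_det (A : E →L[ℝ] E) :
    ∃ p : Polynomial ℝ, p.degree < ((Module.finrank ℝ E + 1 : ℕ) : WithBot ℕ) ∧
      ∀ t : ℝ, p.eval t = (ContinuousLinearMap.id ℝ E + t • A).det := by
  classical
  let b := Module.finBasis ℝ E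
  let MA := LinearMap.toMatrix b b (A : E →ₗ[ℝ] E)
  refine ⟨((Polynomial.X : Polynomial ℝ) • MA.map Polynomial.C
    + (1 : Matrix (Fin (Module.finrank ℝ E)) (Fin (Module.finrank ℝ E)) ℝ).map
      Polynomial.C).det, ?_, ?_⟩
  · refine lt_of_le_of_lt Polynomial.degree_le_natDegree ?_
    have := Polynomial.natDegree_det_X_add_C_le MA
      (1 : Matrix (Fin (Module.finrank ℝ E)) (Fin (Module.finrank ℝ E)) ℝ)
    simp only [Fintype.card_fin] at this
    exact_mod_cast Nat.lt_succ_of_le this
  · intro t
    rw [← Polynomial.coe_evalRingHom, RingHom.map_det]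
    have h1 : (ContinuousLinearMap.id ℝ E + t • A).det
        = LinearMap.det (ContinuousLinearMap.id ℝ E + t • A).toLinearMap :=
      rfl
    have h2 : (ContinuousLinearMap.id ℝ E + t • A).toLinearMap
        = LinearMap.id + t • A.toLinearMap := rfl
    rw [h1, ← LinearMap.det_toMatrix b, h2]
    have h3 : LinearMap.toMatrix b b (LinearMap.id + t • A.toLinearMap)
        = 1 + t • MA := by
      simp only [map_add, map_smul, LinearMap.toMatrix_id, MA]
    rw [h3]
    congr 1
    ext i j
    simp only [RingHom.mapMatrix_apply, Matrix.map_apply, Matrix.add_apply, Matrix.smul_apply,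
      Polynomial.coe_evalRingHom, smul_eq_mul, Polynomial.eval_add, Polynomial.eval_mul,
      Polynomial.eval_X, Polynomial.eval_C, MA]
    ring

/-- If `‖A‖ < 1` then `det (1 + A) > 0`. -/
lemma det_pos_of_norm_lt (A : E →L[ℝ] E)
    (hA : ‖A‖ < 1) : 0 < (ContinuousLinearMap.id ℝ E + A).det := by
  have hne : ∀ s ∈ Icc (0:ℝ) 1,
      (ContinuousLinearMap.id ℝ E + s • A).det ≠ 0 := by
    intro s hs h0
    have h0' : LinearMap.det (ContinuousLinearMap.id ℝ E + s • A).toLinearMap
      = 0 := h0
    obtain ⟨v, hv, hv0⟩ : ∃ v : E, v ≠ 0 ∧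
        (ContinuousLinearMap.id ℝ E + s • A) v = 0 := by
      have := LinearMap.bot_lt_ker_of_det_eq_zero h0'
      obtain ⟨v, hv, hv0⟩ := (Submodule.ne_bot_iff _).1 this.ne'
      exact ⟨v, hv0, hv⟩
    have h3 : v = -(s • A v) := by
      have : v + s • A v = 0 := by simpa using hv0
      exact eq_neg_of_add_eq_zero_left this
    have h4 : ‖v‖ ≤ ‖A‖ * ‖v‖ := by
      calc ‖v‖ = ‖-(s • A v)‖ := congrArg _ h3
        _ = |s| * ‖A v‖ := by rw [norm_neg, norm_smul, Real.norm_eq_abs]
        _ ≤ 1 * (‖A‖ * ‖v‖) := by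
            gcongr
            · rw [abs_of_nonneg hs.1]; exact hs.2
            · exact A.le_opNorm v
        _ = _ := by ring
    have h5 : 0 < ‖v‖ := norm_pos_iff.2 hv
    nlinarith
  by_contra hcon
  push Not at hcon
  have hcont : ContinuousOn (fun s : ℝ =>
      (ContinuousLinearMap.id ℝ E + s • A).det) (Icc 0 1) := by
    apply Continuous.continuousOn
    exact ContinuousLinearMap.continuous_det.comp (by fun_prop)
  have hid : (ContinuousLinearMap.id ℝ E + (0:ℝ) • A).det = 1 := by
    have : (ContinuousLinearMap.id ℝ E + (0:ℝ) • A) = ContinuousLinearMap.id ℝ E := by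
      rw [zero_smul, add_zero]
    rw [this]
    show LinearMap.det _ = 1
    exact LinearMap.det_id
  have h01 : (0:ℝ) ∈ Icc (ContinuousLinearMap.id ℝ E + (1:ℝ) • A).det
      (ContinuousLinearMap.id ℝ E + (0:ℝ) • A).det := by
    refine ⟨by rw [one_smul]; exact hcon, ?_⟩
    rw [hid]; exact zero_le_one
  obtain ⟨s, hs, hs0⟩ := intermediate_value_Icc' zero_le_one hcont h01
  exact hne s hs hs0

variable [MeasurableSpace E] [BorelSpace E]

theorem no_C1_retraction_aux (f : E → E)
    (U : Set E) (hU : IsOpen U) (hB : closedBall 0 1 ⊆ U)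
    (hf : ContDiffOn ℝ 1 f U) (h1 : ∀ x ∈ closedBall (0 : E) 1, ‖f x‖ = 1)
    (h2 : ∀ x, ‖x‖ = 1 → f x = x) (μ : MeasureTheory.Measure E) [μ.IsAddHaarMeasure] : False := by
  classical
  let g : E → E := fun x => f x - x
  let g' : E → E →L[ℝ] E := fun x => fderiv ℝ f x - ContinuousLinearMap.id ℝ E
  have hfd : ∀ x ∈ U, HasStrictFDerivAt f (fderiv ℝ f x) x := fun x hx =>
    (hf.contDiffAt (hU.mem_nhds hx)).hasStrictFDerivAt one_ne_zero
  have hgd : ∀ x ∈ U, HasStrictFDerivAt g (g' x) x := fun x hx =>
    (hfd x hx).sub (hasStrictFDerivAt_id x)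
  have hg'c : ContinuousOn g' (closedBall 0 1) := by
    have : ContinuousOn (fderiv ℝ f) U := hf.continuousOn_fderiv_of_isOpen hU le_rfl
    exact (this.mono hB).sub continuousOn_const
  have hcomp : IsCompact (closedBall (0:E) 1) := isCompact_closedBall 0 1
  -- bound for the derivative
  obtain ⟨C, hC0, hC⟩ : ∃ C : ℝ, 0 < C ∧ ∀ x ∈ closedBall (0:E) 1, ‖g' x‖ ≤ C := by
    obtain ⟨C, hC⟩ := hcomp.exists_bound_of_continuousOn hg'c
    exact ⟨max C 1, by positivity, fun x hx => (hC x hx).trans (le_max_left _ _)⟩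
  have hlip : ∀ x ∈ closedBall (0:E) 1, ∀ y ∈ closedBall (0:E) 1, ‖g y - g x‖ ≤ C * ‖y - x‖ := by
    intro x hx y hy
    exact (convex_closedBall (0:E) 1).norm_image_sub_le_of_norm_hasFDerivWithin_le
      (fun z hz => (hgd z (hB hz)).hasFDerivAt.hasFDerivWithinAt) hC hx hy
  let G : ℝ → E → E := fun t x => x + t • g x
  let G' : ℝ → E → E →L[ℝ] E := fun t x => ContinuousLinearMap.id ℝ E + t • g' x
  have hGd : ∀ t, ∀ x ∈ U, HasStrictFDerivAt (G t) (G' t x) x := fun t x hx =>
    (hasStrictFDerivAt_id x).add ((hgd x hx).const_smul t)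
  have hball : ball (0:E) 1 ⊆ closedBall 0 1 := ball_subset_closedBall
  have hG'c : ∀ t, ContinuousOn (fun x => (G' t x).det) (closedBall 0 1) := by
    intro t
    exact ContinuousLinearMap.continuous_det.comp_continuousOn
      (continuousOn_const.add (hg'c.const_smul t))
  have hint : ∀ t, MeasureTheory.IntegrableOn (fun x => (G' t x).det) (ball (0:E) 1) μ := by
    intro t
    exact ((hG'c t).integrableOn_compact hcomp).mono_set hball
  -- for small t, the integral of the determinant is the volume of the ball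
  have key : ∀ t : ℝ, 0 ≤ t → t * C < 1 → t < 1 →
      ∫ x in ball (0:E) 1, (G' t x).det ∂μ = (μ (ball (0:E) 1)).toReal := by
    intro t ht htC ht1
    have hdet : ∀ x ∈ closedBall (0:E) 1, 0 < (G' t x).det := by
      intro x hx
      apply det_pos_of_norm_lt
      rw [norm_smul, Real.norm_eq_abs, abs_of_nonneg ht]
      exact lt_of_le_of_lt (mul_le_mul_of_nonneg_left (hC x hx) ht) htC
    have hinj : InjOn (G t) (closedBall 0 1) := by
      intro x hx y hy hxy
      have h3 : y - x = -(t • (g y - g x)) := by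
        have : x + t • g x = y + t • g y := hxy
        rw [smul_sub]
        have h4 : y - x = t • g x - t • g y := by
          rw [sub_eq_sub_iff_add_eq_add]; rw [add_comm (t • g x)]; exact this.symm
        rw [h4]; abel
      have h4 : ‖y - x‖ ≤ t * (C * ‖y - x‖) := by
        calc ‖y - x‖ = ‖-(t • (g y - g x))‖ := congrArg _ h3
          _ = t * ‖g y - g x‖ := by rw [norm_neg, norm_smul, Real.norm_eq_abs, abs_of_nonneg ht]
          _ ≤ _ := mul_le_mul_of_nonneg_left (hlip x hx y hy) ht
      have h5 : ‖y - x‖ = 0 := by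
        by_contra hne
        have : 0 < ‖y - x‖ := lt_of_le_of_ne (norm_nonneg _) (Ne.symm hne)
        nlinarith
      exact (sub_eq_zero.1 (norm_eq_zero.1 h5)).symm
    have hGx : ∀ x, G t x = (1 - t) • x + t • f x := by
      intro x
      simp only [G, g, smul_sub, sub_smul, one_smul]; abel
    have hmaps : MapsTo (G t) (ball (0:E) 1) (ball 0 1) := by
      intro x hx
      have hx' : ‖x‖ < 1 := by simpa using hx
      rw [mem_ball_zero_iff, hGx]
      calc ‖(1 - t) • x + t • f x‖ ≤ ‖(1 - t) • x‖ + ‖t • f x‖ := norm_add_le _ _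
        _ = (1 - t) * ‖x‖ + t * 1 := by
            rw [norm_smul, norm_smul, h1 x (hball hx), Real.norm_eq_abs, Real.norm_eq_abs,
              abs_of_nonneg ht, abs_of_pos (by linarith)]
        _ < 1 := by nlinarith
    have hsph : ∀ x, ‖x‖ = 1 → G t x = x := by
      intro x hx
      simp only [G, g, h2 x hx, sub_self, smul_zero, add_zero]
    have hGcont : ContinuousOn (G t) (closedBall 0 1) := fun x hx =>
      (hGd t x (hB hx)).hasFDerivAt.continuousAt.continuousWithinAt
    have himg : G t '' ball 0 1 = ball 0 1 := by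
      apply Subset.antisymm (image_subset_iff.2 hmaps)
      have hopen : IsOpen (G t '' ball (0:E) 1) := by
        rw [isOpen_iff_mem_nhds]
        rintro _ ⟨x, hx, rfl⟩
        have hrange : (G' t x).range = ⊤ := by
          have hd : IsUnit (LinearMap.det (G' t x).toLinearMap) :=
            IsUnit.mk0 _ (hdet x (hball hx)).ne'
          have hu := (LinearMap.isUnit_iff_isUnit_det _).2 hd
          exact LinearMap.range_eq_top.2 ((Module.End.isUnit_iff _).1 hu).2
        rw [← (hGd t x (hB (hball hx))).map_nhds_eq_of_surj hrange]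
        exact Filter.image_mem_map (isOpen_ball.mem_nhds hx)
      have hpre : IsPreconnected (ball (0:E) 1) := (convex_ball (0:E) 1).isPreconnected
      refine hpre.subset_of_closure_inter_subset hopen ?_ ?_
      · refine ⟨G t 0, hmaps (by simp), mem_image_of_mem _ (by simp)⟩
      · rintro z ⟨hz1, hz2⟩
        have hcl : IsClosed (G t '' closedBall (0:E) 1) :=
          (hcomp.image_of_continuousOn hGcont).isClosed
        have hz3 : z ∈ G t '' closedBall (0:E) 1 :=
          closure_minimal (image_mono hball) hcl hz1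
        obtain ⟨x, hx, rfl⟩ := hz3
        rcases lt_or_eq_of_le (mem_closedBall_zero_iff.1 hx) with h | h
        · exact mem_image_of_mem _ (mem_ball_zero_iff.2 h)
        · rw [hsph x h, mem_ball_zero_iff, h] at hz2
          exact absurd hz2 (lt_irrefl _)
    have hcv := MeasureTheory.lintegral_abs_det_fderiv_eq_addHaar_image μ
      (measurableSet_ball (x := (0:E)) (ε := 1))
      (fun x hx => (hGd t x (hB (hball hx))).hasFDerivAt.hasFDerivWithinAt) (hinj.mono hball)
    rw [himg] at hcv
    rw [← hcv, MeasureTheory.integral_eq_lintegral_of_nonneg_ae]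
    · congr 1
      apply MeasureTheory.setLIntegral_congr_fun measurableSet_ball
      intro x hx
      simp only
      rw [abs_of_pos (hdet x (hball hx))]
    · rw [Filter.EventuallyLE, MeasureTheory.ae_restrict_iff' measurableSet_ball]
      exact Filter.Eventually.of_forall (fun x hx => (hdet x (hball hx)).le)
    · exact (hint t).aestronglyMeasurable
  -- nodes
  set n := Module.finrank ℝ E with hn
  let v : ℕ → ℝ := fun i => (i : ℝ) / ((n + 1) * (C + 1))
  have hden : 0 < ((n:ℝ) + 1) * (C + 1) := by positivity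
  have hv : ∀ i ∈ Finset.range (n + 1), 0 ≤ v i ∧ v i * C < 1 ∧ v i < 1 := by
    intro i hi
    have hi' : (i:ℝ) ≤ n := by
      have := Finset.mem_range.1 hi
      exact_mod_cast Nat.lt_succ_iff.1 this
    refine ⟨by positivity, ?_, ?_⟩
    · show (i : ℝ) / ((n + 1) * (C + 1)) * C < 1
      rw [div_mul_eq_mul_div, div_lt_one hden]
      have hn0 : (0:ℝ) ≤ n := Nat.cast_nonneg n
      nlinarith
    · show (i : ℝ) / ((n + 1) * (C + 1)) < 1
      rw [div_lt_one hden]
      have hn0 : (0:ℝ) ≤ n := Nat.cast_nonneg n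
      nlinarith
  have hvinj : Set.InjOn v (Finset.range (n + 1)) := by
    intro i _ j _ hij
    have : (i:ℝ) = j := by
      have h3 : (i : ℝ) / ((n + 1) * (C + 1)) = (j : ℝ) / ((n + 1) * (C + 1)) := hij
      exact (div_left_inj' hden.ne').1 h3
    exact_mod_cast this
  have hlag : ∀ x, (G' 1 x).det = ∑ i ∈ Finset.range (n + 1),
      (Lagrange.basis (Finset.range (n + 1)) v i).eval 1 * (G' (v i) x).det := by
    intro x
    obtain ⟨p, hp, hpe⟩ := exists_poly_det (g' x)
    have h3 := Lagrange.eq_interpolate (s := Finset.range (n + 1)) (v := v) (f := p) hvinj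
      (by rw [Finset.card_range]; exact hp)
    have h4 := congrArg (Polynomial.eval 1) h3
    rw [hpe, Lagrange.interpolate_apply, Polynomial.eval_finsetSum] at h4
    rw [show (G' 1 x).det = (ContinuousLinearMap.id ℝ E + (1:ℝ) • g' x).det from rfl, h4]
    apply Finset.sum_congr rfl
    intro i _
    rw [Polynomial.eval_mul, Polynomial.eval_C, hpe, mul_comm]
  have hsum1 : ∑ i ∈ Finset.range (n + 1),
      (Lagrange.basis (Finset.range (n + 1)) v i).eval 1 = 1 := by
    rw [← Polynomial.eval_finsetSum, Lagrange.sum_basis hvinj ⟨0, by simp⟩, Polynomial.eval_one]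
  have hone : ∫ x in ball (0:E) 1, (G' 1 x).det ∂μ = (μ (ball (0:E) 1)).toReal := by
    have : ∫ x in ball (0:E) 1, (G' 1 x).det ∂μ = ∫ x in ball (0:E) 1, ∑ i ∈ Finset.range (n + 1),
      (Lagrange.basis (Finset.range (n + 1)) v i).eval 1 * (G' (v i) x).det ∂μ := by
      congr 1
      funext x
      exact hlag x
    rw [this, MeasureTheory.integral_finsetSum _ (fun i _ => (hint (v i)).const_mul _)]
    simp_rw [MeasureTheory.integral_const_mul]
    rw [Finset.sum_congr rfl (fun i hi => by
      rw [key (v i) (hv i hi).1 (hv i hi).2.1 (hv i hi).2.2]), ← Finset.sum_mul, hsum1, one_mul]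
  -- the determinant vanishes at t = 1
  have hzero : ∀ x ∈ ball (0:E) 1, (G' 1 x).det = 0 := by
    intro x hx
    by_contra hne
    have hxU := hB (hball hx)
    have hG1 : G' 1 x = fderiv ℝ f x := by
      simp only [G', g', one_smul]; abel
    rw [hG1] at hne
    have hd : IsUnit (LinearMap.det (fderiv ℝ f x).toLinearMap) := IsUnit.mk0 _ hne
    have hu := (LinearMap.isUnit_iff_isUnit_det _).2 hd
    obtain ⟨w, hw⟩ := ((Module.End.isUnit_iff _).1 hu).2 (f x)
    have hw' : fderiv ℝ f x w = f x := hw
    have hdf := (hfd x hxU).hasFDerivAt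
    have hconst : (fun y => inner ℝ (f y) (f y)) =ᶠ[nhds x] fun _ => (1:ℝ) := by
      filter_upwards [isOpen_ball.mem_nhds hx] with y hy
      rw [real_inner_self_eq_norm_sq, h1 y (hball hy)]; norm_num
    have hd1 := hdf.inner ℝ hdf
    have hd2 : HasFDerivAt (fun y => inner ℝ (f y) (f y)) (0 : E →L[ℝ] ℝ) x :=
      (hasFDerivAt_const (1:ℝ) x).congr_of_eventuallyEq hconst
    have h3 := congrArg (fun L : E →L[ℝ] ℝ => L w) (hd1.unique hd2)
    simp only [ContinuousLinearMap.comp_apply, ContinuousLinearMap.prod_apply, fderivInnerCLM_apply,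
      hw', ContinuousLinearMap.zero_apply] at h3
    rw [real_inner_self_eq_norm_sq, h1 x (hball hx)] at h3
    norm_num at h3
  have hz : ∫ x in ball (0:E) 1, (G' 1 x).det ∂μ = 0 := by
    rw [MeasureTheory.setIntegral_congr_fun measurableSet_ball hzero]
    simp
  rw [hz] at hone
  have hpos : 0 < (μ (ball (0:E) 1)).toReal :=
    ENNReal.toReal_pos (MeasureTheory.Measure.measure_pos_of_mem_nhds μ
      (ball_mem_nhds 0 one_pos)).ne' (MeasureTheory.measure_ball_lt_top).ne
  exact hpos.ne hone

end aux

theorem no_C1_retraction (m : ℕ) (f : EuclideanSpace ℝ (Fin m) → EuclideanSpace ℝ (Fin m))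
    (U : Set (EuclideanSpace ℝ (Fin m))) (hU : IsOpen U) (hB : closedBall 0 1 ⊆ U)
    (hf : ContDiffOn ℝ 1 f U) (h1 : ∀ x ∈ closedBall (0 : EuclideanSpace ℝ (Fin m)) 1, ‖f x‖ = 1)
    (h2 : ∀ x, ‖x‖ = 1 → f x = x) : False :=
  no_C1_retraction_aux f U hU hB hf h1 h2 MeasureTheory.volume

end MPd0c340
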