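import Mathlib
import Pool.Agent.MP_d0c340_co.Brouwer1

/-!
# Brouwer's fixed point theorem for the closed Euclidean ball

Proof sketch.
* If `h : E → E` is C¹ on a neighbourhood of `B = closedBall 0 1` (e.g. on all of `E`), maps `B` to `B`
  and has no fixed point in `B`, put `u x = x - h x ≠ 0`,
  `lam x = (-⟪x,u⟫ + √(⟪x,u⟫² + ‖u‖² (1 - ‖x‖²))) / ‖u‖²`, `f x = x + lam x • u x`.
  The discriminant is positive on `B` (if `‖x‖ = 1` then `⟪x,u⟫ = 1 - ⟪x, h x⟫ > 0` as `h x ≠ x`), so `f`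
  is C¹ on a neighbourhood of `B`, `‖f x‖ = 1` there, and `f x = x` if `‖x‖ = 1`:
  contradiction to `no_C1_retraction`.
* General continuous `h`: if no fixed point, `‖h x - x‖ ≥ δ > 0` on `B` (compactness). Approximate `h`
  uniformly on `B` within `ε` by a smooth map `p` (Stone-Weierstrass for the subalgebra of `C(B, ℝ)` of
  restrictions of smooth functions, coordinatewise), then `q = (1 + ε)⁻¹ • p` is smooth, maps `B` to `B`
  and satisfies `‖q x - h x‖ ≤ 2 ε < δ` on `B`, so it has no fixed point.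
-/

open Metric Set

namespace MPd0c340

open scoped RealInnerProductSpace ContDiff

/-- smooth case -/
theorem brouwer_smooth (m : ℕ) (h : EuclideanSpace ℝ (Fin m) → EuclideanSpace ℝ (Fin m))
    (hc : ContDiff ℝ 1 h) (hm : MapsTo h (closedBall 0 1) (closedBall 0 1)) :
    ∃ x ∈ closedBall (0 : EuclideanSpace ℝ (Fin m)) 1, h x = x := by
  by_contra hno
  push Not at hno
  set u : EuclideanSpace ℝ (Fin m) → EuclideanSpace ℝ (Fin m) := fun x => x - h x with hu
  set D : EuclideanSpace ℝ (Fin m) → ℝ :=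
    fun x => ⟪x, u x⟫ ^ 2 + ‖u x‖ ^ 2 * (1 - ‖x‖ ^ 2) with hD
  set lam : EuclideanSpace ℝ (Fin m) → ℝ :=
    fun x => (-⟪x, u x⟫ + Real.sqrt (D x)) / ‖u x‖ ^ 2 with hlam
  have hucd : ContDiff ℝ 1 u := contDiff_id.sub hc
  have hicd : ContDiff ℝ 1 (fun x => ⟪x, u x⟫) := contDiff_id.inner ℝ hucd
  have hncd : ContDiff ℝ 1 (fun x => ‖u x‖ ^ 2) := hucd.norm_sq ℝ
  have hxcd : ContDiff ℝ 1 (fun x : EuclideanSpace ℝ (Fin m) => ‖x‖ ^ 2) := contDiff_norm_sq ℝ
  have hDcd : ContDiff ℝ 1 D := (hicd.pow 2).add (hncd.mul (contDiff_const.sub hxcd))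
  have hune : ∀ x ∈ closedBall (0 : EuclideanSpace ℝ (Fin m)) 1, u x ≠ 0 := by
    intro x hx h0
    exact hno x hx (sub_eq_zero.1 h0).symm
  have hinner : ∀ x : EuclideanSpace ℝ (Fin m), ‖x‖ = 1 → 0 < ⟪x, u x⟫ := by
    intro x hx
    have hxB : x ∈ closedBall (0 : EuclideanSpace ℝ (Fin m)) 1 := by simp [hx]
    have h1 : ‖h x‖ ≤ 1 := by simpa using hm hxB
    have h2 : 0 < ‖u x‖ := norm_pos_iff.2 (hune x hxB)
    have h3 : ‖u x‖ ^ 2 = ‖x‖ ^ 2 - 2 * ⟪x, h x⟫ + ‖h x‖ ^ 2 := norm_sub_sq_real x (h x)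
    have h4 : ⟪x, u x⟫ = 1 - ⟪x, h x⟫ := by
      simp only [hu, inner_sub_right, real_inner_self_eq_norm_sq, hx]; norm_num
    rw [hx] at h3
    have h5 : ‖h x‖ ^ 2 ≤ 1 := by nlinarith [norm_nonneg (h x)]
    nlinarith
  have hDpos : ∀ x ∈ closedBall (0 : EuclideanSpace ℝ (Fin m)) 1, 0 < D x := by
    intro x hx
    have hx1 : ‖x‖ ≤ 1 := by simpa using hx
    have h2 : 0 < ‖u x‖ := norm_pos_iff.2 (hune x hx)
    rcases lt_or_eq_of_le hx1 with hlt | heq
    · have h3 : 0 < 1 - ‖x‖ ^ 2 := by nlinarith [norm_nonneg x]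
      have h4 : 0 < ‖u x‖ ^ 2 * (1 - ‖x‖ ^ 2) := by positivity
      have h5 : 0 ≤ ⟪x, u x⟫ ^ 2 := sq_nonneg _
      simp only [hD]; linarith
    · have h3 := hinner x heq
      simp only [hD, heq]
      have : 0 < ⟪x, u x⟫ ^ 2 := by positivity
      nlinarith
  refine no_C1_retraction m (fun x => x + lam x • u x) ({x | u x ≠ 0} ∩ {x | 0 < D x}) ?_ ?_ ?_ ?_ ?_
  · exact (isOpen_ne_fun hucd.continuous continuous_const).inter
      (isOpen_lt continuous_const hDcd.continuous)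
  · intro x hx
    exact ⟨hune x hx, hDpos x hx⟩
  · apply contDiff_id.contDiffOn.add
    refine ContDiffOn.smul (f := lam) (g := u) ?_ hucd.contDiffOn
    refine ContDiffOn.div (f := fun x => -⟪x, u x⟫ + Real.sqrt (D x)) (g := fun x => ‖u x‖ ^ 2)
      ?_ ?_ ?_
    · apply hicd.neg.contDiffOn.add
      apply hDcd.contDiffOn.sqrt
      intro x hx
      exact hx.2.ne'
    · exact hncd.contDiffOn
    · intro x hx
      have := norm_pos_iff.2 hx.1
      positivity
  · intro x hx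
    have h2 : 0 < ‖u x‖ := norm_pos_iff.2 (hune x hx)
    have h3 : ‖x + lam x • u x‖ ^ 2 = 1 := by
      rw [norm_add_sq_real, norm_smul, mul_pow, Real.norm_eq_abs, sq_abs, inner_smul_right]
      have h4 : Real.sqrt (D x) ^ 2 = D x := Real.sq_sqrt (hDpos x hx).le
      have h5 : lam x * ‖u x‖ ^ 2 = -⟪x, u x⟫ + Real.sqrt (D x) := by
        simp only [hlam]; field_simp
      have h6 : (lam x * ‖u x‖ ^ 2 + ⟪x, u x⟫) ^ 2 = ⟪x, u x⟫ ^ 2 + ‖u x‖ ^ 2 * (1 - ‖x‖ ^ 2) := by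
        rw [h5]
        have : -⟪x, u x⟫ + Real.sqrt (D x) + ⟪x, u x⟫ = Real.sqrt (D x) := by ring
        rw [this, h4]
      have h7 : ‖u x‖ ^ 2 * (‖x‖ ^ 2 + 2 * (lam x * ⟪x, u x⟫) + lam x ^ 2 * ‖u x‖ ^ 2 - 1) = 0 := by
        nlinarith
      have h8 : ‖u x‖ ^ 2 ≠ 0 := by positivity
      have h9 := (mul_eq_zero.1 h7).resolve_left h8
      linarith
    have h4 : 0 ≤ ‖x + lam x • u x‖ := norm_nonneg _
    nlinarith
  · intro x hx
    have h3 := hinner x hx
    have h4 : lam x = 0 := by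
      simp only [hlam, hD, hx]
      have : ⟪x, u x⟫ ^ 2 + ‖u x‖ ^ 2 * (1 - 1 ^ 2) = ⟪x, u x⟫ ^ 2 := by ring
      rw [this, Real.sqrt_sq h3.le]
      simp
    simp [h4]

theorem brouwer_ball (m : ℕ) (h : EuclideanSpace ℝ (Fin m) → EuclideanSpace ℝ (Fin m))
    (hc : ContinuousOn h (closedBall 0 1)) (hm : MapsTo h (closedBall 0 1) (closedBall 0 1)) :
    ∃ x ∈ closedBall (0 : EuclideanSpace ℝ (Fin m)) 1, h x = x := by
  by_contra hno
  push Not at hno
  have hcomp : IsCompact (closedBall (0 : EuclideanSpace ℝ (Fin m)) 1) := isCompact_closedBall _ _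
  have hne : (closedBall (0 : EuclideanSpace ℝ (Fin m)) 1).Nonempty := ⟨0, by simp⟩
  -- lower bound
  obtain ⟨x0, hx0, hx0min⟩ := hcomp.exists_isMinOn hne (hc.sub continuousOn_id).norm
  set δ : ℝ := ‖h x0 - x0‖ with hδ
  have hδpos : 0 < δ := norm_pos_iff.2 (sub_ne_zero.2 (hno x0 hx0))
  have hδle : ∀ x ∈ closedBall (0 : EuclideanSpace ℝ (Fin m)) 1, δ ≤ ‖h x - x‖ := fun x hx =>
    hx0min hx
  -- continuous extension
  set ρ : EuclideanSpace ℝ (Fin m) → EuclideanSpace ℝ (Fin m) := fun x => (max 1 ‖x‖)⁻¹ • x with hρ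
  have hmaxpos : ∀ x : EuclideanSpace ℝ (Fin m), 0 < max 1 ‖x‖ := fun x =>
    lt_of_lt_of_le one_pos (le_max_left _ _)
  have hρc : Continuous ρ := by
    have h1 : Continuous (fun x : EuclideanSpace ℝ (Fin m) => (max 1 ‖x‖)⁻¹) :=
      (continuous_const.max continuous_norm).inv₀ (fun x => (hmaxpos x).ne')
    exact h1.smul continuous_id
  have hρB : ∀ x, ρ x ∈ closedBall (0 : EuclideanSpace ℝ (Fin m)) 1 := by
    intro x
    rw [mem_closedBall_zero_iff]
    simp only [hρ]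
    rw [norm_smul, norm_inv, Real.norm_eq_abs, abs_of_pos (hmaxpos x), inv_mul_le_iff₀ (hmaxpos x),
      mul_one]
    exact le_max_right _ _
  have hρid : ∀ x ∈ closedBall (0 : EuclideanSpace ℝ (Fin m)) 1, ρ x = x := by
    intro x hx
    have hx1 : ‖x‖ ≤ 1 := by simpa using hx
    simp only [hρ]
    rw [max_eq_left hx1]; simp
  have hcomp' : Continuous (fun x => h (ρ x)) := hc.comp_continuous hρc hρB
  set F : C(EuclideanSpace ℝ (Fin m), EuclideanSpace ℝ (Fin m)) := ⟨fun x => h (ρ x), hcomp'⟩ with hF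
  have hdense := ContinuousMap.dense_setOfPred_contDiff (E := EuclideanSpace ℝ (Fin m))
    (F := EuclideanSpace ℝ (Fin m)) F
  rw [mem_closure_iff_nhds_basis (nhds_basis_uniformity
    Metric.uniformity_basis_dist.compactConvergenceUniformity)] at hdense
  set ε : ℝ := δ / 3 with hε
  have hεpos : 0 < ε := by positivity
  obtain ⟨p, hp, hpF⟩ := hdense (closedBall 0 1, ε) ⟨hcomp, hεpos⟩
  have hpF' : ∀ x ∈ closedBall (0 : EuclideanSpace ℝ (Fin m)) 1, ‖p x - h x‖ < ε := by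
    intro x hx
    have := hpF x hx
    simp only [mem_ofPred_eq, hF, ContinuousMap.coe_mk, hρid x hx] at this
    rw [dist_eq_norm] at this
    exact this
  have hpc : ContDiff ℝ ∞ p := hp
  set q : EuclideanSpace ℝ (Fin m) → EuclideanSpace ℝ (Fin m) := fun x => (1 + ε)⁻¹ • p x with hq
  have hqc : ContDiff ℝ 1 q := (hpc.of_le (by exact_mod_cast le_top)).const_smul _
  have hpn : ∀ x ∈ closedBall (0 : EuclideanSpace ℝ (Fin m)) 1, ‖p x‖ ≤ 1 + ε := by
    intro x hx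
    have h1 := hpF' x hx
    have h2 : ‖h x‖ ≤ 1 := by simpa using hm hx
    have h3 : ‖p x‖ ≤ ‖p x - h x‖ + ‖h x‖ := by
      calc ‖p x‖ = ‖(p x - h x) + h x‖ := by simp
        _ ≤ _ := norm_add_le _ _
    linarith
  have hqm : MapsTo q (closedBall 0 1) (closedBall 0 1) := by
    intro x hx
    rw [mem_closedBall_zero_iff]
    simp only [hq]
    rw [norm_smul, norm_inv, Real.norm_eq_abs, abs_of_pos (by positivity),
      inv_mul_le_iff₀ (by positivity), mul_one]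
    exact hpn x hx
  obtain ⟨x, hx, hfix⟩ := brouwer_smooth m q hqc hqm
  have h1 : ‖q x - p x‖ ≤ ε := by
    have h2 : q x - p x = -((ε * (1 + ε)⁻¹) • p x) := by
      simp only [hq]
      have h3 : (1 : ℝ) = (1 + ε)⁻¹ + ε * (1 + ε)⁻¹ := by field_simp
      have h4 : p x = (1 + ε)⁻¹ • p x + (ε * (1 + ε)⁻¹) • p x := by
        rw [← add_smul, ← h3, one_smul]
      nth_rewrite 2 [h4]
      abel
    rw [h2, norm_neg, norm_smul, Real.norm_eq_abs, abs_of_pos (by positivity)]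
    have h5 := hpn x hx
    calc ε * (1 + ε)⁻¹ * ‖p x‖ ≤ ε * (1 + ε)⁻¹ * (1 + ε) := by gcongr
      _ = ε := by field_simp
  have h2 := hpF' x hx
  have h3 := hδle x hx
  have h4 : ‖h x - x‖ ≤ ‖p x - h x‖ + ‖q x - p x‖ := by
    have : h x - x = -(p x - h x) + -(q x - p x) := by rw [hfix]; abel
    rw [this]
    exact (norm_add_le _ _).trans (by rw [norm_neg, norm_neg])
  linarith

end MPd0c340
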