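import Mathlib
import Pool.Agent.MP_d0c340_co.Brouwer2

/-!
# Brouwer's fixed point theorem for compact convex sets

Proof sketch: transport to `EuclideanSpace ℝ (Fin m)` by a continuous linear equivalence
(`toEuclidean`); scale so that `K ⊆ closedBall 0 1`; the nearest point projection `π` onto the compact convex
set `K` (`exists_norm_eq_iInf_of_complete_convex`, characterised by `norm_eq_iInf_iff_real_inner_le_zero`)
is 1-Lipschitz; apply `brouwer_ball` to `f ∘ π`.
-/

open Metric Set

namespace MPd0c340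

/-- Brouwer for compact convex subsets of Euclidean space. -/
lemma brouwer_convex_euclidean (m : ℕ) (K : Set (EuclideanSpace ℝ (Fin m))) (hK : IsCompact K)
    (hc : Convex ℝ K) (hne : K.Nonempty) (f : EuclideanSpace ℝ (Fin m) → EuclideanSpace ℝ (Fin m))
    (hf : ContinuousOn f K) (hm : MapsTo f K K) : ∃ x ∈ K, f x = x := by
  classical
  obtain ⟨R, hR0, hR⟩ : ∃ R : ℝ, 0 < R ∧ ∀ x ∈ K, ‖x‖ ≤ R := by
    obtain ⟨R, hR⟩ := hK.isBounded.exists_norm_le
    exact ⟨max R 1, by positivity, fun x hx => (hR x hx).trans (le_max_left _ _)⟩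
  have hpi : ∀ z : EuclideanSpace ℝ (Fin m), ∃ p ∈ K, ∀ w ∈ K, inner ℝ (z - p) (w - p) ≤ 0 := by
    intro z
    obtain ⟨p, hp, hpe⟩ := exists_norm_eq_iInf_of_complete_convex hne hK.isComplete hc z
    exact ⟨p, hp, (norm_eq_iInf_iff_real_inner_le_zero hc hp).1 hpe⟩
  choose π hπK hπ using hpi
  have hfix : ∀ z ∈ K, π z = z := by
    intro z hz
    have h := hπ z z hz
    have h' : z - π z = 0 := by
      rw [real_inner_self_eq_norm_sq] at h
      have h3 : ‖z - π z‖ ^ 2 = 0 := le_antisymm h (sq_nonneg _)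
      exact norm_eq_zero.1 (pow_eq_zero_iff two_ne_zero |>.1 h3)
    exact (sub_eq_zero.1 h').symm
  have hlip : ∀ z z', ‖π z - π z'‖ ≤ ‖z - z'‖ := by
    intro z z'
    have h1 := hπ z (π z') (hπK z')
    have h2 := hπ z' (π z) (hπK z)
    have h3 : ‖π z - π z'‖ * ‖π z - π z'‖ ≤ inner ℝ (z - z') (π z - π z') := by
      rw [← real_inner_self_eq_norm_mul_norm]
      have e1 : inner ℝ (z - z') (π z - π z') - inner ℝ (π z - π z') (π z - π z')
          = - inner ℝ (z - π z) (π z' - π z) - inner ℝ (z' - π z') (π z - π z') := by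
        simp only [inner_sub_left, inner_sub_right]
        ring
      linarith
    have h4 := real_inner_le_norm (z - z') (π z - π z')
    by_contra hcon
    push Not at hcon
    have h5 : 0 < ‖π z - π z'‖ := lt_of_le_of_lt (norm_nonneg _) hcon
    have h6 : ‖z - z'‖ * ‖π z - π z'‖ < ‖π z - π z'‖ * ‖π z - π z'‖ :=
      mul_lt_mul_of_pos_right hcon h5
    linarith
  have hπc : Continuous π := by
    have : LipschitzWith 1 π := LipschitzWith.of_dist_le_mul (fun z z' => by
      rw [dist_eq_norm, dist_eq_norm]; simpa using hlip z z')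
    exact this.continuous
  obtain ⟨x, hx, hxe⟩ := brouwer_ball m (fun x => R⁻¹ • f (π (R • x)))
    (by
      apply Continuous.continuousOn
      have h1 : Continuous fun x : EuclideanSpace ℝ (Fin m) => f (π (R • x)) := by
        have h2 : ContinuousOn f (K : Set _) := hf
        have h3 : Continuous fun x : EuclideanSpace ℝ (Fin m) => π (R • x) :=
          hπc.comp (continuous_const_smul R)
        exact h2.comp_continuous h3 (fun x => hπK _)
      exact h1.const_smul R⁻¹)
    (by
      intro x _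
      rw [mem_closedBall_zero_iff, norm_smul, Real.norm_eq_abs, abs_of_pos (inv_pos.2 hR0)]
      rw [inv_mul_le_iff₀ hR0, mul_one]
      exact hR _ (hm (hπK _)))
  have h1 : f (π (R • x)) = R • x := by
    have h2 : R⁻¹ • f (π (R • x)) = x := hxe
    calc f (π (R • x)) = R • (R⁻¹ • f (π (R • x))) := (smul_inv_smul₀ hR0.ne' _).symm
      _ = R • x := by rw [h2]
  have h2 : R • x ∈ K := by rw [← h1]; exact hm (hπK _)
  refine ⟨R • x, h2, ?_⟩
  rw [hfix _ h2] at h1
  exact h1

theorem brouwer_convex {E : Type*} [NormedAddCommGroup E] [NormedSpace ℝ E] [FiniteDimensional ℝ E]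
    (K : Set E) (hK : IsCompact K) (hc : Convex ℝ K) (hne : K.Nonempty) (f : E → E)
    (hf : ContinuousOn f K) (hm : MapsTo f K K) : ∃ x ∈ K, f x = x := by
  let e := toEuclidean (E := E)
  obtain ⟨z, hz, hze⟩ := brouwer_convex_euclidean (Module.finrank ℝ E) (e '' K)
    (hK.image e.continuous) (hc.linear_image (e.toLinearEquiv : E →ₗ[ℝ] EuclideanSpace ℝ (Fin (Module.finrank ℝ E)))) (hne.image _)
    (fun z => e (f (e.symm z)))
    (by
      refine e.continuous.comp_continuousOn (hf.comp e.symm.continuous.continuousOn ?_)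
      rintro _ ⟨x, hx, rfl⟩
      simpa using hx)
    (by
      rintro _ ⟨x, hx, rfl⟩
      exact ⟨f x, hm hx, by simp⟩)
  obtain ⟨x, hx, rfl⟩ := hz
  refine ⟨x, hx, ?_⟩
  simpa using hze

end MPd0c340
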