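import Mathlib

/-!
# Definitions for MP_d0c340_co (inscribability of neighborly polytopes)
-/

open Set

namespace MPd0c340

/-- Euclidean space `ℝ^d`. -/
abbrev E (d : ℕ) := EuclideanSpace ℝ (Fin d)

/-- A `d`-polytope: the convex hull of a finite set of points of `ℝ^d`, with nonempty interior. -/
def IsPolytope {d : ℕ} (P : Set (E d)) : Prop :=
  (∃ S : Set (E d), S.Finite ∧ P = convexHull ℝ S) ∧ (interior P).Nonempty

/-- The set of vertices of a polytope. -/
def vertices {d : ℕ} (P : Set (E d)) : Set (E d) := P.extremePoints ℝ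

/-- The face lattice of `P`: all faces (intersections of `P` with supporting hyperplanes, the empty face
and `P` itself), ordered by inclusion. -/
def Faces {d : ℕ} (P : Set (E d)) : Type := {F : Set (E d) // IsExposed ℝ P F}

instance {d : ℕ} (P : Set (E d)) : PartialOrder (Faces P) :=
  inferInstanceAs (PartialOrder {F : Set (E d) // IsExposed ℝ P F})

/-- Combinatorial equivalence: the face lattices are isomorphic. -/
def CombEquiv {d : ℕ} (P Q : Set (E d)) : Prop := Nonempty (Faces P ≃o Faces Q)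

/-- `P` is `k`-neighborly: every set of `k` vertices is the vertex set of a face. -/
def KNeighborly {d : ℕ} (k : ℕ) (P : Set (E d)) : Prop :=
  ∀ S ⊆ vertices P, S.ncard = k → ∃ F, IsExposed ℝ P F ∧ vertices F = S

/-- `P ⊆ ℝ^d` is neighborly: every set of `⌊d/2⌋` vertices is the vertex set of a face. -/
def Neighborly {d : ℕ} (P : Set (E d)) : Prop := KNeighborly (d / 2) P

/-- `P` is inscribable: some polytope combinatorially equivalent to `P` has all its vertices on a
common sphere. -/
def Inscribable {d : ℕ} (P : Set (E d)) : Prop :=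
  ∃ Q : Set (E d), IsPolytope Q ∧ CombEquiv P Q ∧
    ∃ (c : E d) (r : ℝ), 0 < r ∧ ∀ v ∈ vertices Q, dist v c = r

/-- The homogenisation `(1, x) ∈ ℝ^(d+1)` of a point `x ∈ ℝ^d`. -/
def hom {d : ℕ} (x : E d) : Fin (d + 1) → ℝ := Fin.cons 1 (fun i => x i)

/-- The projective transformation of (part of) `ℝ^d` given by a `(d+1) × (d+1)` matrix. -/
noncomputable def proj {d : ℕ} (A : Matrix (Fin (d + 1)) (Fin (d + 1)) ℝ) (x : E d) : E d :=
  WithLp.toLp 2 (fun i : Fin d => (A.mulVec (hom x)) i.succ / (A.mulVec (hom x)) 0)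

/-- The quadratic form `u ↦ ∑ (y i / ⟨w, v i⟩) ⟨u, v i⟩²`. -/
noncomputable def Phi {ι : Type} [Fintype ι] {D : ℕ} (v : ι → Fin D → ℝ) (w : Fin D → ℝ) (y : ι → ℝ)
    (u : Fin D → ℝ) : ℝ := ∑ i, y i / (w ⬝ᵥ v i) * (u ⬝ᵥ v i) ^ 2

/-- The number of negative entries. -/
noncomputable def negSet {ι : Type} [Fintype ι] (y : ι → ℝ) : Finset ι := by
  classical exact Finset.univ.filter fun i => y i < 0

end MPd0c340
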