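import Mathlib
import Pool.Agent.MP_d0c340_co.Defs

open Set Matrix

namespace MPd0c340

variable {ι : Type} [Fintype ι] {D : ℕ}

/-- linear dependencies -/
def Dep (v : ι → Fin D → ℝ) (y : ι → ℝ) : Prop := ∑ i, y i • v i = 0

lemma Dep.dot {v : ι → Fin D → ℝ} {y : ι → ℝ} (h : Dep v y) (u : Fin D → ℝ) :
    ∑ i, y i * (u ⬝ᵥ v i) = 0 := by
  have h1 : u ⬝ᵥ (∑ i, y i • v i) = 0 := by
    rw [h]; simp
  rw [← h1, dotProduct_sum]
  refine Finset.sum_congr rfl fun i _ => ?_
  rw [dotProduct_smul, smul_eq_mul]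

lemma mem_negSet (y : ι → ℝ) (i : ι) : i ∈ negSet y ↔ y i < 0 := by
  simp [negSet]

/-- every nonzero dependency has at least `k+1` negative entries -/
lemma neg_card [DecidableEq ι] (v : ι → Fin D → ℝ)
    (w0 : Fin D → ℝ) (hw0 : ∀ i, 0 < w0 ⬝ᵥ v i) (k : ℕ) (hkn : k < Fintype.card ι)
    (hface : ∀ K : Finset ι, K.card = k → ∃ b : Fin D → ℝ, (∀ i ∈ K, b ⬝ᵥ v i = 0) ∧
      ∀ i ∉ K, 0 < b ⬝ᵥ v i) (y : ι → ℝ) (hy : Dep v y) (hy0 : y ≠ 0) :
    k + 1 ≤ (negSet y).card := by
  by_contra hcon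
  push Not at hcon
  have hle : (negSet y).card ≤ k := by omega
  -- a positive entry
  obtain ⟨i, hi⟩ : ∃ i, 0 < y i := by
    by_contra hno
    push Not at hno
    apply hy0
    have hs := hy.dot w0
    have hterm : ∀ i ∈ Finset.univ, y i * (w0 ⬝ᵥ v i) ≤ 0 := fun i _ =>
      mul_nonpos_of_nonpos_of_nonneg (hno i) (hw0 i).le
    have hz := (Finset.sum_eq_zero_iff_of_nonpos hterm).1 hs
    funext i
    have := hz i (Finset.mem_univ i)
    rcases mul_eq_zero.1 this with h | h
    · exact h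
    · exact absurd h (hw0 i).ne'
  have hsub : negSet y ⊆ Finset.univ.erase i := by
    intro j hj
    rw [mem_negSet] at hj
    simp only [Finset.mem_erase, Finset.mem_univ, and_true]
    rintro rfl
    linarith
  have hcard : k ≤ (Finset.univ.erase i : Finset ι).card := by
    rw [Finset.card_erase_of_mem (Finset.mem_univ i), Finset.card_univ]; omega
  obtain ⟨K, hK1, hK2, hK3⟩ := Finset.exists_subsuperset_card_eq hsub hle hcard
  obtain ⟨b, hb1, hb2⟩ := hface K hK3
  have hs := hy.dot b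
  have hiK : i ∉ K := fun h => by simpa using hK2 h
  have : 0 < ∑ i, y i * (b ⬝ᵥ v i) := by
    refine Finset.sum_pos' ?_ ⟨i, Finset.mem_univ i, mul_pos hi (hb2 i hiK)⟩
    intro j _
    by_cases hj : j ∈ K
    · rw [hb1 j hj]; simp
    · have : 0 ≤ y j := by
        by_contra h
        exact hj (hK1 ((mem_negSet y j).2 (not_le.1 h)))
      exact mul_nonneg this (hb2 j hj).le
  linarith

/-- dual functional for a `k`-set -/
lemma exists_dual [DecidableEq ι] (v : ι → Fin D → ℝ) (k : ℕ)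
    (hneg : ∀ y : ι → ℝ, Dep v y → y ≠ 0 → k + 1 ≤ (negSet y).card)
    (K : Finset ι) (hK : K.card = k) (i : ι) (hi : i ∈ K) :
    ∃ u : Fin D → ℝ, u ⬝ᵥ v i = 1 ∧ ∀ j ∈ K, j ≠ i → u ⬝ᵥ v j = 0 := by
  -- the span of the others
  set S : Submodule ℝ (Fin D → ℝ) := Submodule.span ℝ (v '' ((K.erase i : Finset ι) : Set ι)) with hS
  have hnot : v i ∉ S := by
    intro hmem
    rw [hS, Submodule.mem_span_image_finset_iff_exists_fun'] at hmem
    obtain ⟨c, hc⟩ := hmem
    -- dependency
    set y : ι → ℝ := fun j => if j = i then -1 else if j ∈ K then c j else 0 with hy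
    have hyi : y i = -1 := by simp [hy]
    have hy0 : y ≠ 0 := fun h => by
      have := congrFun h i
      rw [hyi] at this
      norm_num at this
    have hdep : Dep v y := by
      unfold Dep
      have hsupp : ∑ j, y j • v j = ∑ j ∈ K, y j • v j := by
        symm
        refine Finset.sum_subset (Finset.subset_univ K) ?_
        intro j _ hj
        have hji : j ≠ i := fun h => hj (h ▸ hi)
        simp [hy, hj, hji]
      rw [hsupp, ← Finset.add_sum_erase K _ hi, hyi]
      have : ∑ j ∈ K.erase i, y j • v j = ∑ j ∈ K.erase i, c j • v j := by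
        refine Finset.sum_congr rfl fun j hj => ?_
        rw [Finset.mem_erase] at hj
        simp [hy, hj.1, hj.2]
      rw [this, hc]
      simp
    have h1 := hneg y hdep hy0
    have h2 : negSet y ⊆ K := by
      intro j hj
      rw [mem_negSet] at hj
      by_contra hjK
      have hji : j ≠ i := fun h => hjK (h ▸ hi)
      simp [hy, hjK, hji] at hj
    have h3 := Finset.card_le_card h2
    omega
  obtain ⟨f, hf1, hf2⟩ := Submodule.exists_le_ker_of_notMem hnot
  have hrep : ∀ x : Fin D → ℝ, (fun j => (f (v i))⁻¹ * f (Pi.single j 1)) ⬝ᵥ x = (f (v i))⁻¹ * f x := by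
    intro x
    rw [LinearMap.pi_apply_eq_sum_univ f x, Finset.mul_sum, dotProduct]
    refine Finset.sum_congr rfl fun j _ => ?_
    have : (fun l => if j = l then (1 : ℝ) else 0) = Pi.single j 1 := by
      funext l
      by_cases h : j = l
      · subst h; simp
      · simp [h, Ne.symm h]
    rw [this, smul_eq_mul]; ring
  refine ⟨fun j => (f (v i))⁻¹ * f (Pi.single j 1), ?_, ?_⟩
  · rw [hrep]; exact inv_mul_cancel₀ hf1
  · intro j hj hji
    rw [hrep]
    have : v j ∈ S := Submodule.subset_span ⟨j, by simp [hji, hj], rfl⟩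
    have := hf2 this
    rw [LinearMap.mem_ker] at this
    rw [this, mul_zero]

/-- counting: a dependency with positive semidefinite form has few negative entries -/
lemma neg_count (v : ι → Fin D → ℝ)
    (hspan : ∀ u : Fin D → ℝ, (∀ i, u ⬝ᵥ v i = 0) → u = 0)
    (w : Fin D → ℝ) (hw : ∀ i, 0 < w ⬝ᵥ v i) (y : ι → ℝ) (hpsd : ∀ u, 0 ≤ Phi v w y u) :
    (negSet y).card + D ≤ Fintype.card ι := by
  classical
  let T : Finset ι := (negSet y)ᶜ
  let L : (Fin D → ℝ) →ₗ[ℝ] (T → ℝ) :=
    { toFun := fun u i => u ⬝ᵥ v i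
      map_add' := fun a b => by funext i; simp [add_dotProduct]
      map_smul' := fun c a => by funext i; simp [smul_dotProduct] }
  have hinj : Function.Injective L := by
    rw [← LinearMap.ker_eq_bot, Submodule.eq_bot_iff]
    intro u hu
    rw [LinearMap.mem_ker] at hu
    have hT : ∀ i, i ∉ negSet y → u ⬝ᵥ v i = 0 := by
      intro i hi
      have := congrFun hu ⟨i, by simp [T, hi]⟩
      exact this
    apply hspan
    intro i
    by_cases hi : i ∈ negSet y
    · by_contra hne
      have hlt : Phi v w y u < 0 := by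
        unfold Phi
        refine Finset.sum_neg' ?_ ⟨i, Finset.mem_univ i, ?_⟩
        · intro j _
          by_cases hj : j ∈ negSet y
          · rw [mem_negSet] at hj
            exact mul_nonpos_of_nonpos_of_nonneg (div_nonpos_of_nonpos_of_nonneg hj.le (hw j).le)
              (sq_nonneg _)
          · rw [hT j hj]; simp
        · rw [mem_negSet] at hi
          exact mul_neg_of_neg_of_pos (div_neg_of_neg_of_pos hi (hw i)) (by positivity)
      exact absurd (hpsd u) (not_le.2 hlt)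
    · exact hT i hi
  have h1 := LinearMap.finrank_le_finrank_of_injective hinj
  simp only [Module.finrank_fintype_fun_eq_card, Fintype.card_fin, Fintype.card_coe] at h1
  have h2 : T.card = Fintype.card ι - (negSet y).card := Finset.card_compl _
  have h3 : (negSet y).card ≤ Fintype.card ι := Finset.card_le_univ _
  omega

/-- the trace of the form -/
noncomputable def tau (v : ι → Fin D → ℝ) (w : Fin D → ℝ) (y : ι → ℝ) : ℝ :=
  ∑ i, y i / (w ⬝ᵥ v i) * (v i ⬝ᵥ v i)

lemma tau_eq (v : ι → Fin D → ℝ) (w : Fin D → ℝ) (y : ι → ℝ) :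
    tau v w y = ∑ j, Phi v w y (Pi.single j 1) := by
  unfold tau Phi
  rw [Finset.sum_comm]
  refine Finset.sum_congr rfl fun i _ => ?_
  rw [← Finset.mul_sum]
  congr 1
  rw [dotProduct]
  refine Finset.sum_congr rfl fun j _ => ?_
  rw [single_dotProduct]; ring

lemma tau_nonneg (v : ι → Fin D → ℝ) (w : Fin D → ℝ) (y : ι → ℝ) (h : ∀ u, 0 ≤ Phi v w y u) :
    0 ≤ tau v w y := by
  rw [tau_eq]; exact Finset.sum_nonneg fun j _ => h _

/-- a positive semidefinite form of trace zero vanishes -/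
lemma Phi_eq_zero_of_tau (v : ι → Fin D → ℝ) (w : Fin D → ℝ) (y : ι → ℝ) (h : ∀ u, 0 ≤ Phi v w y u)
    (ht : tau v w y = 0) (u : Fin D → ℝ) : Phi v w y u = 0 := by
  rw [tau_eq] at ht
  have hz := (Finset.sum_eq_zero_iff_of_nonneg (fun j _ => h _)).1 ht
  -- additivity of the zero set
  have hadd : ∀ a b, Phi v w y a = 0 → Phi v w y b = 0 → Phi v w y (a + b) = 0 := by
    intro a b ha hb
    have hpar : Phi v w y (a + b) + Phi v w y (a - b) = 2 * Phi v w y a + 2 * Phi v w y b := by
      unfold Phi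
      rw [← Finset.sum_add_distrib, Finset.mul_sum, Finset.mul_sum, ← Finset.sum_add_distrib]
      refine Finset.sum_congr rfl fun i _ => ?_
      rw [add_dotProduct, sub_dotProduct]; ring
    have h1 := h (a + b)
    have h2 := h (a - b)
    rw [ha, hb] at hpar
    linarith
  have hsmul : ∀ (c : ℝ) a, Phi v w y a = 0 → Phi v w y (c • a) = 0 := by
    intro c a ha
    have : Phi v w y (c • a) = c ^ 2 * Phi v w y a := by
      unfold Phi
      rw [Finset.mul_sum]
      refine Finset.sum_congr rfl fun i _ => ?_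
      rw [smul_dotProduct, smul_eq_mul]; ring
    rw [this, ha, mul_zero]
  have h0 : Phi v w y 0 = 0 := by unfold Phi; simp
  have hsum : ∀ s : Finset (Fin D), Phi v w y (∑ j ∈ s, u j • Pi.single j (1 : ℝ)) = 0 := by
    intro s
    induction s using Finset.induction_on with
    | empty => simpa using h0
    | insert a s ha ih =>
      rw [Finset.sum_insert ha]
      exact hadd _ _ (hsmul _ _ (hz a (Finset.mem_univ a))) ih
  have hu : u = ∑ j ∈ Finset.univ, u j • Pi.single j (1 : ℝ) := by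
    funext l
    simp [Finset.sum_apply, Pi.single_apply]
  rw [hu]; exact hsum _

/-- the form of a nonzero dependency does not vanish identically -/
lemma tau_pos [DecidableEq ι] (v : ι → Fin D → ℝ)
    (hspan : ∀ u : Fin D → ℝ, (∀ i, u ⬝ᵥ v i = 0) → u = 0)
    (w0 : Fin D → ℝ) (hw0 : ∀ i, 0 < w0 ⬝ᵥ v i) (k : ℕ) (hkn : k < Fintype.card ι)
    (hface : ∀ K : Finset ι, K.card = k → ∃ b : Fin D → ℝ, (∀ i ∈ K, b ⬝ᵥ v i = 0) ∧
      ∀ i ∉ K, 0 < b ⬝ᵥ v i)
    (hn : Fintype.card ι ≤ D + 2 * k)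
    (w : Fin D → ℝ) (hw : ∀ i, 0 < w ⬝ᵥ v i) (y : ι → ℝ) (hy : Dep v y) (hy0 : y ≠ 0)
    (hpsd : ∀ u, 0 ≤ Phi v w y u) : 0 < tau v w y := by
  have hneg : ∀ y : ι → ℝ, Dep v y → y ≠ 0 → k + 1 ≤ (negSet y).card :=
    fun y h1 h2 => neg_card v w0 hw0 k hkn hface y h1 h2
  rcases (tau_nonneg v w y hpsd).lt_or_eq with h | h
  · exact h
  exfalso
  have hPhi := Phi_eq_zero_of_tau v w y hpsd h.symm
  -- polarise: for all a b, ∑ lam i (a·v i)(b·v i) = 0
  have hpol : ∀ a b : Fin D → ℝ, ∑ i, y i / (w ⬝ᵥ v i) * ((a ⬝ᵥ v i) * (b ⬝ᵥ v i)) = 0 := by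
    intro a b
    have h1 := hPhi (a + b)
    have h2 := hPhi (a - b)
    unfold Phi at h1 h2
    have h3 : (∑ i, y i / (w ⬝ᵥ v i) * ((a + b) ⬝ᵥ v i) ^ 2)
        - (∑ i, y i / (w ⬝ᵥ v i) * ((a - b) ⬝ᵥ v i) ^ 2)
        = 4 * ∑ i, y i / (w ⬝ᵥ v i) * ((a ⬝ᵥ v i) * (b ⬝ᵥ v i)) := by
      rw [← Finset.sum_sub_distrib, Finset.mul_sum]
      refine Finset.sum_congr rfl fun i _ => ?_
      rw [add_dotProduct, sub_dotProduct]; ring
    rw [h1, h2] at h3
    linarith
  have hcnt := neg_count v hspan w hw y hpsd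
  have hk1 := hneg y hy hy0
  -- choose a k-subset of the negative set
  obtain ⟨K, hK1, hK2⟩ := Finset.exists_subset_card_eq (s := negSet y) (n := k) (by omega)
  obtain ⟨b, hb1, hb2⟩ := hface K hK2
  set z : ι → ℝ := fun i => y i / (w ⬝ᵥ v i) * (b ⬝ᵥ v i) with hz
  have hzdep : Dep v z := by
    unfold Dep
    funext j
    have := hpol b (Pi.single j 1)
    rw [Finset.sum_apply, Pi.zero_apply, ← this]
    refine Finset.sum_congr rfl fun i _ => ?_
    rw [Pi.smul_apply, smul_eq_mul, single_dotProduct, hz]; ring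
  have hz0 : z ≠ 0 := by
    obtain ⟨i, hi1, hi2⟩ : ∃ i ∈ negSet y, i ∉ K := by
      by_contra hno
      push Not at hno
      have := Finset.card_le_card (show negSet y ⊆ K from hno)
      omega
    intro h
    have := congrFun h i
    rw [hz] at this
    simp only [Pi.zero_apply] at this
    rw [mem_negSet] at hi1
    have h5 : y i / (w ⬝ᵥ v i) < 0 := div_neg_of_neg_of_pos hi1 (hw i)
    have h6 := mul_neg_of_neg_of_pos h5 (hb2 i hi2)
    linarith
  have h7 := hneg z hzdep hz0
  have h8 : negSet z ⊆ negSet y \ K := by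
    intro i hi
    rw [mem_negSet] at hi
    rw [Finset.mem_sdiff, mem_negSet]
    have hiK : i ∉ K := by
      intro hiK
      rw [hz] at hi
      simp only [hb1 i hiK, mul_zero, lt_self_iff_false] at hi
    refine ⟨?_, hiK⟩
    by_contra hnn
    push Not at hnn
    have : 0 ≤ z i := mul_nonneg (div_nonneg hnn (hw i).le) (hb2 i hiK).le
    linarith
  have h9 := Finset.card_le_card h8
  rw [Finset.card_sdiff_of_subset hK1, hK2] at h9
  omega

end MPd0c340
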