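import Mathlib
import Pool.Agent.MP_d0c340_co.ChartA

/-!
# Level sets and the weighted centre map
-/

open Set Matrix Filter Topology

namespace MPd0c340

variable {ι : Type} [Fintype ι] [LinearOrder ι] {D : ℕ}

/-- weight of the set `Z` at `s`: positive iff `Z` is a strict sublevel set consisting of
negative entries -/
noncomputable def wt (Z : Finset ι) (s : ι → ℝ) : ℝ :=
  (∏ i ∈ Z, max 0 (-s i)) * ∏ i ∈ Z, ∏ j ∈ Zᶜ, max 0 (s j - s i)

lemma wt_nonneg (Z : Finset ι) (s : ι → ℝ) : 0 ≤ wt Z s :=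
  mul_nonneg (Finset.prod_nonneg fun _ _ => le_max_left _ _)
    (Finset.prod_nonneg fun _ _ => Finset.prod_nonneg fun _ _ => le_max_left _ _)

lemma wt_continuous (Z : Finset ι) : Continuous (wt Z) := by
  unfold wt
  fun_prop

lemma wt_pos_iff (Z : Finset ι) (s : ι → ℝ) :
    0 < wt Z s ↔ (∀ i ∈ Z, s i < 0) ∧ ∀ i ∈ Z, ∀ j ∉ Z, s i < s j := by
  rw [(wt_nonneg Z s).lt_iff_ne', wt, mul_ne_zero_iff, Finset.prod_ne_zero_iff,
    Finset.prod_ne_zero_iff]
  refine and_congr ?_ ?_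
  · refine forall₂_congr fun i _ => ?_
    constructor
    · intro h
      by_contra hcon
      exact h (max_eq_left (by linarith [not_lt.1 hcon]))
    · intro h
      exact (lt_max_of_lt_right (by linarith)).ne'
  · refine forall₂_congr fun i _ => ?_
    rw [Finset.prod_ne_zero_iff]
    constructor
    · intro h j hj
      by_contra hcon
      exact h j (by simpa using hj) (max_eq_left (by linarith [not_lt.1 hcon]))
    · intro h j hj
      exact (lt_max_of_lt_right (by linarith [h j (by simpa using hj)])).ne'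

lemma wt_chain {Z Z' : Finset ι} {s : ι → ℝ} (h : 0 < wt Z s) (h' : 0 < wt Z' s) :
    Z ⊆ Z' ∨ Z' ⊆ Z := by
  rw [wt_pos_iff] at h h'
  by_contra hcon
  push Not at hcon
  obtain ⟨i, hi, hi'⟩ := Finset.not_subset.1 hcon.1
  obtain ⟨j, hj, hj'⟩ := Finset.not_subset.1 hcon.2
  exact lt_asymm (h.2 i hi j hj') (h'.2 j hj i hi')

lemma wt_negSet (s : ι → ℝ) : 0 < wt (negSet s) s := by
  rw [wt_pos_iff]
  refine ⟨fun i hi => (mem_negSet s i).1 hi, fun i hi j hj => ?_⟩
  rw [mem_negSet] at hi hj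
  linarith [not_lt.1 hj]

/-- sets `Z` with at least `k+1` elements -/
def ZZ (ι : Type) [Fintype ι] (k : ℕ) : Finset (Finset ι) :=
  Finset.univ.filter fun Z => k + 1 ≤ Z.card

lemma mem_ZZ (k : ℕ) (Z : Finset ι) : Z ∈ ZZ ι k ↔ k + 1 ≤ Z.card := by simp [ZZ]

/-- total weight -/
noncomputable def tot (k : ℕ) (s : ι → ℝ) : ℝ := ∑ Z ∈ ZZ ι k, wt Z s

lemma tot_pos {k : ℕ} {s : ι → ℝ} (h : k + 1 ≤ (negSet s).card) : 0 < tot k s :=
  Finset.sum_pos' (fun Z _ => wt_nonneg Z s) ⟨negSet s, (mem_ZZ k _).2 h, wt_negSet s⟩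

/-- the weighted centre -/
noncomputable def Xi (k : ℕ) (bb : Finset ι → Fin D → ℝ) (s : ι → ℝ) : Fin D → ℝ :=
  ∑ Z ∈ ZZ ι k, (wt Z s / tot k s) • bb Z

lemma sum_wt {k : ℕ} {s : ι → ℝ} (h : k + 1 ≤ (negSet s).card) :
    ∑ Z ∈ ZZ ι k, wt Z s / tot k s = 1 := by
  rw [← Finset.sum_div]
  exact div_self (tot_pos h).ne'

lemma Xi_mem (k : ℕ) (bb : Finset ι → Fin D → ℝ) (W : Set (Fin D → ℝ)) (hW : Convex ℝ W)
    (hbb : ∀ Z, bb Z ∈ W) (s : ι → ℝ) (h : k + 1 ≤ (negSet s).card) : Xi k bb s ∈ W := by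
  unfold Xi
  exact hW.sum_mem (fun Z _ => div_nonneg (wt_nonneg Z s) (tot_pos h).le) (sum_wt h)
    (fun Z _ => hbb Z)

lemma Xi_continuousOn (k : ℕ) (bb : Finset ι → Fin D → ℝ) :
    ContinuousOn (Xi k bb) {s | k + 1 ≤ (negSet s).card} := by
  unfold Xi
  refine continuousOn_finsetSum _ fun Z _ => ?_
  have h1 : ContinuousOn (fun s => wt Z s / tot k s) {s | k + 1 ≤ (negSet s).card} := by
    refine ContinuousOn.div (wt_continuous Z).continuousOn ?_ fun s hs => (tot_pos hs).ne'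
    unfold tot
    exact (continuous_finsetSum _ fun Z _ => wt_continuous Z).continuousOn
  have h2 : ContinuousOn (fun _ : ι → ℝ => bb Z) {s | k + 1 ≤ (negSet s).card} :=
    continuousOn_const
  exact h1.smul h2

/-- the choice of a `k`-subset of `Z`, containing the minima of all subsets with at least `k+1`
elements -/
lemma exists_F {k : ℕ} (Z : Finset ι) (h1 : k + 1 ≤ Z.card) (h2 : Z.card ≤ 2 * k) :
    ∃ F : Finset ι, F ⊆ Z ∧ F.card = k ∧
      ∀ Z' : Finset ι, Z' ⊆ Z → k + 1 ≤ Z'.card → ∀ m ∈ Z', (∀ j ∈ Z', m ≤ j) → m ∈ F := by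
  set G : Finset ι := Z.filter fun i => k ≤ (Z.filter fun j => i < j).card with hG
  have hGZ : G ⊆ Z := Finset.filter_subset _ _
  have hGk : G.card ≤ k := by
    rcases G.eq_empty_or_nonempty with h | h
    · rw [h]; simp
    · have hg := G.max'_mem h
      have hg2 := (Finset.mem_filter.1 hg).2
      have hdis : Disjoint G (Z.filter fun j => G.max' h < j) := by
        rw [Finset.disjoint_left]
        intro a ha hb
        exact absurd (G.le_max' a ha) (not_le.2 (Finset.mem_filter.1 hb).2)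
      have := Finset.card_le_card (Finset.union_subset hGZ
        (Finset.filter_subset (fun j => G.max' h < j) Z))
      rw [Finset.card_union_of_disjoint hdis] at this
      omega
  obtain ⟨F, hF1, hF2, hF3⟩ := Finset.exists_subsuperset_card_eq hGZ hGk (by omega : k ≤ Z.card)
  refine ⟨F, hF2, hF3, fun Z' hZ' hcard m hm hmin => hF1 ?_⟩
  rw [hG, Finset.mem_filter]
  refine ⟨hZ' hm, ?_⟩
  have hsub : Z'.erase m ⊆ Z.filter fun j => m < j := by
    intro j hj
    rw [Finset.mem_erase] at hj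
    rw [Finset.mem_filter]
    exact ⟨hZ' hj.2, lt_of_le_of_ne (hmin j hj.2) (Ne.symm hj.1)⟩
  have := Finset.card_le_card hsub
  rw [Finset.card_erase_of_mem hm] at this
  omega

/-- sets of positive weight -/
noncomputable def lev (k : ℕ) (s : ι → ℝ) : Finset (Finset ι) := by
  classical exact (ZZ ι k).filter fun Z => 0 < wt Z s

lemma mem_lev {k : ℕ} {s : ι → ℝ} {Z : Finset ι} :
    Z ∈ lev k s ↔ k + 1 ≤ Z.card ∧ 0 < wt Z s := by
  simp [lev, mem_ZZ]

lemma lev_subset_negSet {k : ℕ} {s : ι → ℝ} {Z : Finset ι} (h : Z ∈ lev k s) :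
    Z ⊆ negSet s := by
  intro i hi
  rw [mem_negSet]
  exact ((wt_pos_iff Z s).1 (mem_lev.1 h).2).1 i hi

/-- a chain has at most `k` members -/
lemma card_lev {k : ℕ} {s : ι → ℝ} (h : (negSet s).card ≤ 2 * k) : (lev k s).card ≤ k := by
  have hmaps : ∀ Z ∈ lev k s, Z.card ∈ Finset.Icc (k + 1) (2 * k) := by
    intro Z hZ
    rw [Finset.mem_Icc]
    exact ⟨(mem_lev.1 hZ).1, (Finset.card_le_card (lev_subset_negSet hZ)).trans h⟩
  have hinj : Set.InjOn Finset.card ((lev k s : Finset (Finset ι)) : Set (Finset ι)) := by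
    intro Z hZ Z' hZ' hcard
    rcases wt_chain (mem_lev.1 hZ).2 (mem_lev.1 hZ').2 with h | h
    · exact Finset.eq_of_subset_of_card_le h hcard.ge
    · exact (Finset.eq_of_subset_of_card_le h hcard.le).symm
  have := Finset.card_le_card_of_injOn Finset.card hmaps hinj
  rw [Nat.card_Icc] at this
  omega

/-- some set has normalised weight at least `1/k` -/
lemma exists_heavy {k : ℕ} {s : ι → ℝ} (h1 : k + 1 ≤ (negSet s).card)
    (h2 : (negSet s).card ≤ 2 * k) : ∃ Z ∈ lev k s, 1 / (k : ℝ) ≤ wt Z s / tot k s := by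
  by_contra hcon
  push Not at hcon
  have hk : 0 < k := by omega
  have hsum : ∑ Z ∈ lev k s, wt Z s / tot k s = 1 := by
    rw [← sum_wt h1]
    refine Finset.sum_subset (by intro Z hZ; exact (mem_ZZ k Z).2 (mem_lev.1 hZ).1) ?_
    intro Z hZ hZ'
    rw [mem_ZZ] at hZ
    rw [mem_lev, not_and] at hZ'
    have : wt Z s = 0 := le_antisymm (not_lt.1 (hZ' hZ)) (wt_nonneg Z s)
    rw [this, zero_div]
  have hne : (lev k s).Nonempty := ⟨negSet s, mem_lev.2 ⟨h1, wt_negSet s⟩⟩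
  have h3 := Finset.sum_lt_sum_of_nonempty hne hcon
  rw [hsum, Finset.sum_const, nsmul_eq_mul] at h3
  have h4 : ((lev k s).card : ℝ) ≤ k := by exact_mod_cast card_lev h2
  have h5 : ((lev k s).card : ℝ) * (1 / (k : ℝ)) ≤ 1 := by
    rw [mul_one_div, div_le_one (by exact_mod_cast hk)]; exact h4
  linarith

/-- the smallest set of positive weight -/
lemma exists_min_lev {k : ℕ} {s : ι → ℝ} (h1 : k + 1 ≤ (negSet s).card) :
    ∃ Z0 ∈ lev k s, ∀ Z ∈ lev k s, Z0 ⊆ Z := by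
  have hne : (lev k s).Nonempty := ⟨negSet s, mem_lev.2 ⟨h1, wt_negSet s⟩⟩
  obtain ⟨Z0, hZ0, hmin⟩ := Finset.exists_min_image (lev k s) Finset.card hne
  refine ⟨Z0, hZ0, fun Z hZ => ?_⟩
  rcases wt_chain (mem_lev.1 hZ0).2 (mem_lev.1 hZ).2 with h | h
  · exact h
  · rw [Finset.eq_of_subset_of_card_le h (hmin Z hZ)]

end MPd0c340
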