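import Mathlib
import Pool.Agent.MP_d0c340_co.ChartA
import Pool.Agent.MP_d0c340_co.Brouwer3

/-!
# A fixed point theorem (approximate continuous selection + Brouwer)
-/

open Set Matrix Filter Topology

namespace MPd0c340

variable {ι : Type} [Fintype ι] {D : ℕ}

lemma continuous_dot (a : Fin D → ℝ) : Continuous fun w : Fin D → ℝ => w ⬝ᵥ a := by
  unfold dotProduct; fun_prop

lemma Dep.sum {v : ι → Fin D → ℝ} {α : Type} (A : Finset α) (c : α → ℝ) (Y : α → ι → ℝ)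
    (h : ∀ a ∈ A, Dep v (Y a)) : Dep v (∑ a ∈ A, c a • Y a) := by
  unfold Dep
  have : ∀ i, (∑ a ∈ A, c a • Y a) i • v i = ∑ a ∈ A, c a • (Y a i • v i) := by
    intro i
    rw [Finset.sum_apply, Finset.sum_smul]
    refine Finset.sum_congr rfl fun a _ => ?_
    rw [Pi.smul_apply, smul_eq_mul, mul_smul]
  simp_rw [this]
  rw [Finset.sum_comm]
  refine Finset.sum_eq_zero fun a ha => ?_
  rw [← Finset.smul_sum, h a ha, smul_zero]

lemma Dep.smul {v : ι → Fin D → ℝ} {y : ι → ℝ} (h : Dep v y) (c : ℝ) : Dep v (c • y) := by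
  unfold Dep at *
  have : ∀ i, (c • y) i • v i = c • (y i • v i) := by
    intro i; rw [Pi.smul_apply, smul_eq_mul, mul_smul]
  simp_rw [this]
  rw [← Finset.smul_sum, h, smul_zero]

lemma isClosed_Dep (v : ι → Fin D → ℝ) : IsClosed {y : ι → ℝ | Dep v y} := by
  unfold Dep
  refine isClosed_eq ?_ continuous_const
  fun_prop

lemma Phi_sum (v : ι → Fin D → ℝ) (w : Fin D → ℝ) {α : Type} (A : Finset α) (c : α → ℝ)
    (Y : α → ι → ℝ) (u : Fin D → ℝ) :
    Phi v w (∑ a ∈ A, c a • Y a) u = ∑ a ∈ A, c a * Phi v w (Y a) u := by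
  unfold Phi
  simp_rw [Finset.mul_sum]
  rw [Finset.sum_comm]
  refine Finset.sum_congr rfl fun i _ => ?_
  rw [Finset.sum_apply, Finset.sum_div, Finset.sum_mul]
  refine Finset.sum_congr rfl fun a _ => ?_
  rw [Pi.smul_apply, smul_eq_mul]; ring

lemma tau_sum (v : ι → Fin D → ℝ) (w : Fin D → ℝ) {α : Type} (A : Finset α) (c : α → ℝ)
    (Y : α → ι → ℝ) :
    tau v w (∑ a ∈ A, c a • Y a) = ∑ a ∈ A, c a * tau v w (Y a) := by
  unfold tau
  simp_rw [Finset.mul_sum]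
  rw [Finset.sum_comm]
  refine Finset.sum_congr rfl fun i _ => ?_
  rw [Finset.sum_apply, Finset.sum_div, Finset.sum_mul]
  refine Finset.sum_congr rfl fun a _ => ?_
  rw [Pi.smul_apply, smul_eq_mul]; ring

/-- both `Phi` and `tau` are of this shape -/
noncomputable def lin (v : ι → Fin D → ℝ) (q : ι → ℝ) (w : Fin D → ℝ) (y : ι → ℝ) : ℝ :=
  ∑ i, y i / (w ⬝ᵥ v i) * q i

lemma lin_diff (v : ι → Fin D → ℝ) (q : ι → ℝ) (hq : ∀ i, 0 ≤ q i) (w w' : Fin D → ℝ) (y : ι → ℝ)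
    (hy : ‖y‖ ≤ 1) (η : ℝ) (h : ∀ i, |(w ⬝ᵥ v i)⁻¹ - (w' ⬝ᵥ v i)⁻¹| ≤ η) :
    |lin v q w y - lin v q w' y| ≤ η * ∑ i, q i := by
  unfold lin
  rw [← Finset.sum_sub_distrib, Finset.mul_sum]
  refine (Finset.abs_sum_le_sum_abs _ _).trans (Finset.sum_le_sum fun i _ => ?_)
  have h1 : y i / (w ⬝ᵥ v i) * q i - y i / (w' ⬝ᵥ v i) * q i
      = y i * ((w ⬝ᵥ v i)⁻¹ - (w' ⬝ᵥ v i)⁻¹) * q i := by
    rw [div_eq_mul_inv, div_eq_mul_inv]; ring
  rw [h1, abs_mul, abs_mul, abs_of_nonneg (hq i)]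
  have h2 : |y i| ≤ 1 := (norm_le_pi_norm y i).trans hy
  have h3 := h i
  have h4 := abs_nonneg ((w ⬝ᵥ v i)⁻¹ - (w' ⬝ᵥ v i)⁻¹)
  have : |y i| * |(w ⬝ᵥ v i)⁻¹ - (w' ⬝ᵥ v i)⁻¹| ≤ 1 * η :=
    mul_le_mul h2 h3 h4 zero_le_one
  rw [one_mul] at this
  exact mul_le_mul_of_nonneg_right this (hq i)

lemma continuousOn_lin (v : ι → Fin D → ℝ) (q : ι → ℝ) (W : Set (Fin D → ℝ))
    (hWpos : ∀ w ∈ W, ∀ i, 0 < w ⬝ᵥ v i) (T : Set (ι → ℝ)) :
    ContinuousOn (fun p : (Fin D → ℝ) × (ι → ℝ) => lin v q p.1 p.2) (W ×ˢ T) := by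
  unfold lin
  refine continuousOn_finsetSum _ fun i _ => ?_
  refine ContinuousOn.mul ?_ continuousOn_const
  refine ContinuousOn.div ?_ ?_ ?_
  · exact ((continuous_apply i).comp continuous_snd).continuousOn
  · exact ((continuous_dot (v i)).comp continuous_fst).continuousOn
  · rintro ⟨w, y⟩ hp
    exact (hWpos w hp.1 i).ne'

theorem exists_fixed_pair (v : ι → Fin D → ℝ) (W : Set (Fin D → ℝ)) (hWc : IsCompact W)
    (hWconv : Convex ℝ W) (hWne : W.Nonempty) (hWpos : ∀ w ∈ W, ∀ i, 0 < w ⬝ᵥ v i)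
    (htau : ∀ w ∈ W, ∀ y, Dep v y → y ≠ 0 → (∀ u, 0 ≤ Phi v w y u) → 0 < tau v w y)
    (hbad : ∀ w ∈ W, ∃ y, Dep v y ∧ y ≠ 0 ∧ ∀ u, 0 ≤ Phi v w y u)
    (Xi : (ι → ℝ) → (Fin D → ℝ)) (hXc : ContinuousOn Xi {s | Dep v s ∧ s ≠ 0})
    (hXm : ∀ s, Dep v s → s ≠ 0 → Xi s ∈ W) :
    ∃ w ∈ W, ∃ s, Dep v s ∧ s ≠ 0 ∧ (∀ u, 0 ≤ Phi v w s u) ∧ Xi s = w := by
  classical
  have hPhi : ∀ w y u, Phi v w y u = lin v (fun i => (u ⬝ᵥ v i) ^ 2) w y := fun _ _ _ => rfl
  have htau' : ∀ w y, tau v w y = lin v (fun i => v i ⬝ᵥ v i) w y := fun _ _ => rfl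
  have hvv : ∀ i, 0 ≤ v i ⬝ᵥ v i := fun i => by
    unfold dotProduct; exact Finset.sum_nonneg fun j _ => mul_self_nonneg _
  -- the compact set of normalised bad pairs
  set K0 : Set ((Fin D → ℝ) × (ι → ℝ)) := W ×ˢ Metric.sphere 0 1 with hK0
  have hK0c : IsCompact K0 := hWc.prod (isCompact_sphere 0 1)
  set S : Set ((Fin D → ℝ) × (ι → ℝ)) :=
    (K0 ∩ {p | Dep v p.2}) ∩ ⋂ u : Fin D → ℝ, (K0 ∩ (fun p => Phi v p.1 p.2 u) ⁻¹' Ici 0) with hS
  have hScl : IsClosed S := by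
    refine IsClosed.inter (hK0c.isClosed.inter ?_) ?_
    · exact (isClosed_Dep v).preimage continuous_snd
    · refine isClosed_iInter fun u => ?_
      exact (continuousOn_lin v (fun i => (u ⬝ᵥ v i) ^ 2) W hWpos _).preimage_isClosed_of_isClosed
        hK0c.isClosed isClosed_Ici
  have hSc : IsCompact S := hK0c.of_isClosed_subset hScl (fun p hp => hp.1.1)
  have hmem : ∀ w ∈ W, ∃ y, (w, y) ∈ S := by
    intro w hw
    obtain ⟨y, hy1, hy2, hy3⟩ := hbad w hw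
    have hny : 0 < ‖y‖ := norm_pos_iff.2 hy2
    refine ⟨‖y‖⁻¹ • y, ⟨⟨hw, ?_⟩, hy1.smul _⟩, ?_⟩
    · simp [norm_smul, hny.ne']
    · rw [mem_iInter]
      intro u
      refine ⟨⟨hw, by simp [norm_smul, hny.ne']⟩, ?_⟩
      have := Phi_sum v w ({()} : Finset Unit) (fun _ => ‖y‖⁻¹) (fun _ => y) u
      simp only [Finset.sum_singleton] at this
      simp only [mem_preimage, mem_Ici]
      rw [this]
      exact mul_nonneg (by positivity) (hy3 u)
  have hSprop : ∀ w y, (w, y) ∈ S → w ∈ W ∧ ‖y‖ = 1 ∧ Dep v y ∧ ∀ u, 0 ≤ Phi v w y u := by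
    intro w y hp
    refine ⟨hp.1.1.1, by simpa using hp.1.1.2, hp.1.2, fun u => ?_⟩
    have := mem_iInter.1 hp.2 u
    exact this.2
  -- lower bound of tau
  obtain ⟨t0, ht0, ht0'⟩ : ∃ t0 : ℝ, 0 < t0 ∧ ∀ w y, (w, y) ∈ S → t0 ≤ tau v w y := by
    obtain ⟨w1, hw1⟩ := hWne
    obtain ⟨y1, hy1⟩ := hmem w1 hw1
    have hcont : ContinuousOn (fun p : (Fin D → ℝ) × (ι → ℝ) => tau v p.1 p.2) S :=
      (continuousOn_lin v (fun i => v i ⬝ᵥ v i) W hWpos (Metric.sphere 0 1)).mono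
        (fun p hp => hp.1.1)
    obtain ⟨p, hpS, hpmin⟩ := hSc.exists_isMinOn ⟨_, hy1⟩ hcont
    obtain ⟨h1, h2, h3, h4⟩ := hSprop p.1 p.2 hpS
    refine ⟨tau v p.1 p.2, htau p.1 h1 p.2 h3 (fun h => by rw [h, norm_zero] at h2; norm_num at h2) h4,
      fun w y hwy => ?_⟩
    exact hpmin hwy
  choose! Y hY using hmem
  -- approximate solutions
  set C : ℝ := ∑ i, v i ⬝ᵥ v i with hC
  have hC0 : 0 ≤ C := Finset.sum_nonneg fun i _ => hvv i
  have happrox : ∀ η : ℝ, 0 < η → η * C ≤ t0 / 2 → ∃ w ∈ W, ∃ s, Dep v s ∧ ‖s‖ ≤ 1 ∧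
      t0 / 2 ≤ tau v w s ∧ (∀ u, -(η * ∑ i, (u ⬝ᵥ v i) ^ 2) ≤ Phi v w s u) ∧ Xi s = w := by
    intro η hη hηC
    -- uniform continuity of the inverses
    have hginv : ContinuousOn (fun w : Fin D → ℝ => fun i => (w ⬝ᵥ v i)⁻¹) W := by
      refine continuousOn_pi.2 fun i => ?_
      exact ContinuousOn.inv₀ (continuous_dot (v i)).continuousOn fun w hw => (hWpos w hw i).ne'
    have huc := hWc.uniformContinuousOn_of_continuous hginv
    rw [Metric.uniformContinuousOn_iff] at huc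
    obtain ⟨r, hr, hr'⟩ := huc η hη
    obtain ⟨t, htW, htfin, htcov⟩ := hWc.finite_cover_balls hr
    set A : Finset (Fin D → ℝ) := htfin.toFinset with hA
    set ρ : (Fin D → ℝ) → (Fin D → ℝ) → ℝ := fun a w => max 0 (r - dist w a) with hρ
    have hρ0 : ∀ a w, 0 ≤ ρ a w := fun a w => le_max_left _ _
    have hρc : ∀ a, Continuous (ρ a) := fun a => by rw [hρ]; fun_prop
    have hρpos : ∀ w ∈ W, 0 < ∑ a ∈ A, ρ a w := by
      intro w hw
      obtain ⟨a, ha1, ha2⟩ := mem_iUnion₂.1 (htcov hw)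
      refine Finset.sum_pos' (fun a _ => hρ0 a w) ⟨a, by simpa [hA] using ha1, ?_⟩
      rw [Metric.mem_ball] at ha2
      exact lt_max_of_lt_right (by linarith)
    set c : (Fin D → ℝ) → (Fin D → ℝ) → ℝ := fun w a => (∑ a ∈ A, ρ a w)⁻¹ * ρ a w with hc
    set s : (Fin D → ℝ) → (ι → ℝ) := fun w => ∑ a ∈ A, c w a • Y a with hs
    have hc0 : ∀ w a, 0 ≤ c w a := fun w a =>
      mul_nonneg (inv_nonneg.2 (Finset.sum_nonneg fun a _ => hρ0 a w)) (hρ0 a w)
    have hc1 : ∀ w ∈ W, ∑ a ∈ A, c w a = 1 := by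
      intro w hw
      rw [hc, ← Finset.mul_sum, inv_mul_cancel₀ (hρpos w hw).ne']
    have hAW : ∀ a ∈ A, a ∈ W := fun a ha => htW (by simpa [hA] using ha)
    have hYa : ∀ a ∈ A, ‖Y a‖ = 1 ∧ Dep v (Y a) ∧ ∀ u, 0 ≤ Phi v a (Y a) u := fun a ha =>
      (hSprop a (Y a) (hY a (hAW a ha))).2
    have hscont : ContinuousOn s W := by
      rw [hs]
      refine continuousOn_finsetSum _ fun a _ => ?_
      have hca : ContinuousOn (fun w => c w a) W := by
        refine ContinuousOn.mul (ContinuousOn.inv₀ ?_ fun w hw => (hρpos w hw).ne') (hρc a).continuousOn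
        exact (continuous_finsetSum _ fun a _ => hρc a).continuousOn
      have hYc : ContinuousOn (fun _ : Fin D → ℝ => Y a) W := continuousOn_const
      exact hca.smul hYc
    have hsdep : ∀ w, Dep v (s w) := fun w => Dep.sum A _ _ fun a ha => (hYa a ha).2.1
    have hsnorm : ∀ w ∈ W, ‖s w‖ ≤ 1 := by
      intro w hw
      rw [hs]
      refine (norm_sum_le _ _).trans ?_
      rw [← hc1 w hw]
      refine Finset.sum_le_sum fun a ha => ?_
      rw [norm_smul, (hYa a ha).1, mul_one, Real.norm_of_nonneg (hc0 w a)]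
    -- key comparison for `lin`
    have hkey : ∀ (q : ι → ℝ), (∀ i, 0 ≤ q i) → ∀ w ∈ W, ∀ a ∈ A, c w a ≠ 0 →
        lin v q a (Y a) - η * ∑ i, q i ≤ lin v q w (Y a) := by
      intro q hq w hw a ha hca
      have hdist : dist w a < r := by
        by_contra hcon
        apply hca
        rw [hc]
        have : ρ a w = 0 := max_eq_left (by linarith [not_lt.1 hcon])
        simp only [this, mul_zero]
      have h1 := hr' w hw a (hAW a ha) hdist
      have h2 : ∀ i, |(w ⬝ᵥ v i)⁻¹ - (a ⬝ᵥ v i)⁻¹| ≤ η := by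
        intro i
        have := dist_le_pi_dist (fun i => (w ⬝ᵥ v i)⁻¹) (fun i => (a ⬝ᵥ v i)⁻¹) i
        rw [Real.dist_eq] at this
        exact this.trans h1.le
      have h3 := lin_diff v q hq w a (Y a) (hYa a ha).1.le η h2
      have h4 := (abs_le.1 h3).1
      linarith
    have hlin : ∀ (q : ι → ℝ), (∀ i, 0 ≤ q i) → ∀ m : ℝ, (∀ a ∈ A, m ≤ lin v q a (Y a)) → ∀ w ∈ W,
        m - η * ∑ i, q i ≤ ∑ a ∈ A, c w a * lin v q w (Y a) := by
      intro q hq m hm w hw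
      have : m - η * ∑ i, q i = ∑ a ∈ A, c w a * (m - η * ∑ i, q i) := by
        rw [← Finset.sum_mul, hc1 w hw, one_mul]
      rw [this]
      refine Finset.sum_le_sum fun a ha => ?_
      by_cases hca : c w a = 0
      · rw [hca]; simp
      · refine mul_le_mul_of_nonneg_left ?_ (hc0 w a)
        have h1 := hkey q hq w hw a ha hca
        have h2 := hm a ha
        linarith
    have hstau : ∀ w ∈ W, t0 / 2 ≤ tau v w (s w) := by
      intro w hw
      rw [hs, tau_sum]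
      have := hlin (fun i => v i ⬝ᵥ v i) hvv t0 (fun a ha => ht0' a (Y a) (hY a (hAW a ha))) w hw
      simp_rw [htau']
      linarith
    have hsPhi : ∀ w ∈ W, ∀ u, -(η * ∑ i, (u ⬝ᵥ v i) ^ 2) ≤ Phi v w (s w) u := by
      intro w hw u
      rw [hs, Phi_sum]
      have := hlin (fun i => (u ⬝ᵥ v i) ^ 2) (fun i => sq_nonneg _) 0
        (fun a ha => (hYa a ha).2.2 u) w hw
      simp_rw [hPhi]
      linarith
    have hsne : ∀ w ∈ W, s w ≠ 0 := by
      intro w hw h0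
      have := hstau w hw
      rw [h0] at this
      have h2 : tau v w 0 = 0 := by unfold tau; simp
      rw [h2] at this
      linarith
    obtain ⟨w, hw, hfix⟩ := brouwer_convex W hWc hWconv hWne (fun w => Xi (s w))
      (hXc.comp hscont fun w hw => ⟨hsdep w, hsne w hw⟩)
      (fun w hw => hXm _ (hsdep w) (hsne w hw))
    exact ⟨w, hw, s w, hsdep w, hsnorm w hw, hstau w hw, hsPhi w hw, hfix⟩
  -- a sequence of approximate solutions
  have hη : ∀ n : ℕ, 0 < t0 / 2 / (C + 1) / (n + 1) := fun n => by positivity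
  have hηC : ∀ n : ℕ, t0 / 2 / (C + 1) / (n + 1) * C ≤ t0 / 2 := by
    intro n
    have h1 : t0 / 2 / (C + 1) / (n + 1) ≤ t0 / 2 / (C + 1) :=
      div_le_self (by positivity) (by linarith [Nat.cast_nonneg (α := ℝ) n])
    have h2 : t0 / 2 / (C + 1) * C ≤ t0 / 2 := by
      rw [div_mul_eq_mul_div, div_le_iff₀ (by linarith)]
      nlinarith
    exact (mul_le_mul_of_nonneg_right h1 hC0).trans h2
  choose w hwW s hsdep hsnorm hstau hsPhi hfix using fun n : ℕ => happrox _ (hη n) (hηC n)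
  have hcomp : IsCompact (W ×ˢ Metric.closedBall (0 : ι → ℝ) 1) := hWc.prod (isCompact_closedBall 0 1)
  obtain ⟨⟨w', s'⟩, hmem', φ, hφ, hlim⟩ := hcomp.tendsto_subseq
    (x := fun n => (w n, s n)) (fun n => ⟨hwW n, by simpa using hsnorm n⟩)
  have hlimw : Tendsto (fun n => w (φ n)) atTop (𝓝 w') := (Prod.tendsto_iff _ _).1 hlim |>.1
  have hlims : Tendsto (fun n => s (φ n)) atTop (𝓝 s') := (Prod.tendsto_iff _ _).1 hlim |>.2
  have hw' : w' ∈ W := hmem'.1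
  have hlinlim : ∀ q : ι → ℝ, Tendsto (fun n => lin v q (w (φ n)) (s (φ n))) atTop
      (𝓝 (lin v q w' s')) := by
    intro q
    have hcont := continuousOn_lin v q W hWpos (Metric.closedBall (0 : ι → ℝ) 1)
    have h1 := hcont (w', s') hmem'
    have h2 : Tendsto (fun n => ((w (φ n), s (φ n)) : (Fin D → ℝ) × (ι → ℝ))) atTop
        (𝓝[W ×ˢ Metric.closedBall (0 : ι → ℝ) 1] (w', s')) := by
      rw [tendsto_nhdsWithin_iff]
      exact ⟨hlim, Eventually.of_forall fun n => ⟨hwW _, by simpa using hsnorm _⟩⟩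
    exact h1.tendsto.comp h2
  have hdep' : Dep v s' := (isClosed_Dep v).mem_of_tendsto hlims (Eventually.of_forall fun n => hsdep _)
  have htau0 : t0 / 2 ≤ tau v w' s' :=
    ge_of_tendsto' (hlinlim (fun i => v i ⬝ᵥ v i)) fun n => hstau (φ n)
  have hs'ne : s' ≠ 0 := by
    intro h0
    rw [h0] at htau0
    have h2 : tau v w' 0 = 0 := by unfold tau; simp
    rw [h2] at htau0
    linarith
  refine ⟨w', hw', s', hdep', hs'ne, fun u => ?_, ?_⟩
  · have h1 : Tendsto (fun n => -(t0 / 2 / (C + 1) / ((φ n : ℕ) + 1) * ∑ i, (u ⬝ᵥ v i) ^ 2)) atTop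
        (𝓝 0) := by
      have h2 : Tendsto (fun n : ℕ => t0 / 2 / (C + 1) / ((n : ℝ) + 1)) atTop (𝓝 0) :=
        Tendsto.div_atTop tendsto_const_nhds
          (tendsto_atTop_add_const_right _ _ tendsto_natCast_atTop_atTop)
      have h3 := (h2.comp hφ.tendsto_atTop).mul_const (∑ i, (u ⬝ᵥ v i) ^ 2)
      rw [zero_mul] at h3
      have h4 := h3.neg
      rw [neg_zero] at h4
      exact h4
    exact le_of_tendsto_of_tendsto' h1 (hlinlim (fun i => (u ⬝ᵥ v i) ^ 2)) fun n => hsPhi (φ n) u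
  · have h1 := hXc s' ⟨hdep', hs'ne⟩
    have h2 : Tendsto (fun n => s (φ n)) atTop (𝓝[{s | Dep v s ∧ s ≠ 0}] s') := by
      rw [tendsto_nhdsWithin_iff]
      refine ⟨hlims, Eventually.of_forall fun n => ⟨hsdep _, ?_⟩⟩
      intro h0
      have := hstau (φ n)
      rw [h0] at this
      have h2 : tau v (w (φ n)) 0 = 0 := by unfold tau; simp
      rw [h2] at this
      linarith
    have h3 := h1.tendsto.comp h2
    have h4 : (Xi ∘ fun n => s (φ n)) = fun n => w (φ n) := by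
      funext n; exact hfix (φ n)
    rw [h4] at h3
    exact tendsto_nhds_unique h3 hlimw

end MPd0c340
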