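import Mathlib
import Pool.Agent.MP_d0c340_co.Defs
import Pool.Agent.MP_d0c340_co.Brouwer3
import Pool.Agent.MP_d0c340_co.ChartA
import Pool.Agent.MP_d0c340_co.ChartB
import Pool.Agent.MP_d0c340_co.ChartC

/-!
# Existence of a good chart
-/

open Set Matrix Filter Topology

namespace MPd0c340

/-- uniform version of `neg_card` -/
lemma exists_delta {ι : Type} [Fintype ι] {D : ℕ} (v : ι → Fin D → ℝ) (k : ℕ)
    (hneg : ∀ y : ι → ℝ, Dep v y → y ≠ 0 → k + 1 ≤ (negSet y).card) :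
    ∃ δ : ℝ, 0 < δ ∧ ∀ y : ι → ℝ, Dep v y → y ≠ 0 →
      ∃ T : Finset ι, k + 1 ≤ T.card ∧ ∀ i ∈ T, y i < -δ * ‖y‖ := by
  classical
  set S : Set (ι → ℝ) := Metric.sphere 0 1 ∩ {y | Dep v y} with hS
  have hSc : IsCompact S := (isCompact_sphere 0 1).inter_right (isClosed_Dep v)
  set U : ℕ → Set (ι → ℝ) := fun n =>
    ⋃ T : Finset ι, ⋃ (_ : k + 1 ≤ T.card), ⋂ i ∈ T, {y | y i < -(1 / ((n : ℝ) + 1))} with hU
  have hUo : ∀ n, IsOpen (U n) := by
    intro n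
    refine isOpen_iUnion fun T => isOpen_iUnion fun _ => isOpen_biInter_finset fun i _ => ?_
    exact isOpen_lt (continuous_apply i) continuous_const
  have hmonU : Monotone U := by
    intro a b hab y hy
    simp only [hU, mem_iUnion, mem_iInter, mem_ofPred_eq] at hy ⊢
    obtain ⟨T, hT, hy⟩ := hy
    refine ⟨T, hT, fun i hi => (hy i hi).trans_le ?_⟩
    have : 1 / ((b : ℝ) + 1) ≤ 1 / ((a : ℝ) + 1) := by
      apply one_div_le_one_div_of_le (by positivity)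
      have : (a : ℝ) ≤ b := by exact_mod_cast hab
      linarith
    linarith
  have hcov : S ⊆ ⋃ n, U n := by
    rintro y ⟨hy1, hy2⟩
    have hy0 : y ≠ 0 := by
      intro h
      rw [h] at hy1
      simp at hy1
    have h1 := hneg y hy2 hy0
    -- smallest absolute value of negative entries
    have hne : (negSet y).Nonempty := Finset.card_pos.1 (by omega)
    obtain ⟨i0, hi0, hmax⟩ := Finset.exists_max_image (negSet y) y hne
    have hneg0 : y i0 < 0 := (mem_negSet y i0).1 hi0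
    obtain ⟨n, hn⟩ := exists_nat_one_div_lt (show (0 : ℝ) < -y i0 by linarith)
    rw [mem_iUnion]
    refine ⟨n, ?_⟩
    simp only [hU, mem_iUnion, mem_iInter, mem_ofPred_eq]
    refine ⟨negSet y, h1, fun i hi => ?_⟩
    have := hmax i hi
    linarith
  obtain ⟨n, hn⟩ := hSc.elim_directed_cover U hUo hcov hmonU.directed_le
  refine ⟨1 / ((n : ℝ) + 1), by positivity, fun y hy hy0 => ?_⟩
  have hny : 0 < ‖y‖ := norm_pos_iff.2 hy0
  have hmem : ‖y‖⁻¹ • y ∈ S := ⟨by simp [norm_smul, hny.ne'], hy.smul _⟩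
  have := hn hmem
  simp only [hU, mem_iUnion, mem_iInter, mem_ofPred_eq] at this
  obtain ⟨T, hT, hT'⟩ := this
  refine ⟨T, hT, fun i hi => ?_⟩
  have h1 := hT' i hi
  rw [Pi.smul_apply, smul_eq_mul, inv_mul_lt_iff₀ hny] at h1
  linarith

theorem exists_good_chart {ι : Type} [Fintype ι] [LinearOrder ι] {D : ℕ} (v : ι → Fin D → ℝ)
    (hspan : ∀ u : Fin D → ℝ, (∀ i, u ⬝ᵥ v i = 0) → u = 0)
    (w0 : Fin D → ℝ) (hw0 : ∀ i, 0 < w0 ⬝ᵥ v i) (k : ℕ) (hk : 1 ≤ k) (hkn : k < Fintype.card ι)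
    (hface : ∀ K : Finset ι, K.card = k → ∃ b : Fin D → ℝ, (∀ i ∈ K, b ⬝ᵥ v i = 0) ∧
      ∀ i ∉ K, 0 < b ⬝ᵥ v i)
    (hn : Fintype.card ι ≤ D + 2 * k) :
    ∃ w : Fin D → ℝ, (∀ i, 0 < w ⬝ᵥ v i) ∧
      ¬ ∃ y : ι → ℝ, (∑ i, y i • v i = 0) ∧ (∀ u, 0 ≤ Phi v w y u) ∧ ∃ u, 0 < Phi v w y u := by
  by_contra hcon
  push Not at hcon
  have hbad0 : ∀ w : Fin D → ℝ, (∀ i, 0 < w ⬝ᵥ v i) →
      ∃ y, Dep v y ∧ y ≠ 0 ∧ ∀ u, 0 ≤ Phi v w y u := by
    intro w hw
    obtain ⟨y, hy1, hy2, u, hu⟩ := hcon w hw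
    refine ⟨y, hy1, ?_, hy2⟩
    rintro rfl
    unfold Phi at hu
    simp at hu
  have hneg : ∀ y : ι → ℝ, Dep v y → y ≠ 0 → k + 1 ≤ (negSet y).card :=
    fun y h1 h2 => neg_card v w0 hw0 k hkn hface y h1 h2
  have hnegle : ∀ w : Fin D → ℝ, (∀ i, 0 < w ⬝ᵥ v i) → ∀ y : ι → ℝ, (∀ u, 0 ≤ Phi v w y u) →
      (negSet y).card ≤ 2 * k := by
    intro w hw y hy
    have := neg_count v hspan w hw y hy
    omega
  -- the face functionals
  choose! b hb0 hb1 using hface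
  have hcardpos : 0 < Fintype.card ι := by omega
  have : Nonempty ι := Fintype.card_pos_iff.1 hcardpos
  set P : Finset (Finset ι) := Finset.powersetCard k Finset.univ with hP
  have hPmem : ∀ K, K ∈ P ↔ K.card = k := by intro K; simp [hP, Finset.mem_powersetCard]
  have hPne : P.Nonempty := Finset.powersetCard_nonempty.2 (by rw [Finset.card_univ]; omega)
  -- lower bound kappa
  obtain ⟨κ, hκ, hκ'⟩ : ∃ κ : ℝ, 0 < κ ∧ ∀ K, K.card = k → ∀ i ∉ K, κ ≤ b K ⬝ᵥ v i := by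
    set Q : Finset (Finset ι × ι) := (P ×ˢ Finset.univ).filter fun p => p.2 ∉ p.1 with hQ
    rcases Q.eq_empty_or_nonempty with h | h
    · refine ⟨1, one_pos, fun K hK i hi => ?_⟩
      exfalso
      have : (K, i) ∈ Q := by
        rw [hQ, Finset.mem_filter]
        exact ⟨by rw [Finset.mem_product]; exact ⟨(hPmem K).2 hK, Finset.mem_univ _⟩, hi⟩
      rw [h] at this
      simp at this
    · obtain ⟨p, hp, hmin⟩ := Finset.exists_min_image Q (fun p => b p.1 ⬝ᵥ v p.2) h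
      rw [hQ, Finset.mem_filter, Finset.mem_product] at hp
      refine ⟨b p.1 ⬝ᵥ v p.2, hb1 p.1 ((hPmem _).1 hp.1.1) p.2 hp.2, fun K hK i hi => ?_⟩
      refine hmin (K, i) ?_
      rw [hQ, Finset.mem_filter]
      exact ⟨by rw [Finset.mem_product]; exact ⟨(hPmem K).2 hK, Finset.mem_univ _⟩, hi⟩
  -- the dual functionals
  have hdual : ∀ K : Finset ι, ∀ m : ι, K.card = k → m ∈ K →
      ∃ u : Fin D → ℝ, u ⬝ᵥ v m = 1 ∧ ∀ j ∈ K, j ≠ m → u ⬝ᵥ v j = 0 :=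
    fun K m hK hm => exists_dual v k hneg K hK m hm
  choose! ud hud1 hud2 using hdual
  obtain ⟨Cu, hCu⟩ : ∃ Cu : ℝ, ∀ K m i, (ud K m ⬝ᵥ v i) ^ 2 ≤ Cu := by
    obtain ⟨p, hp⟩ := Finite.exists_max (fun p : Finset ι × ι × ι => (ud p.1 p.2.1 ⬝ᵥ v p.2.2) ^ 2)
    exact ⟨_, fun K m i => hp (K, m, i)⟩
  have hCu0 : 0 ≤ Cu := (sq_nonneg _).trans (hCu ∅ (Classical.arbitrary ι) (Classical.arbitrary ι))
  obtain ⟨c1, hc1, hc1'⟩ : ∃ c1 : ℝ, 0 < c1 ∧ ∀ i, w0 ⬝ᵥ v i ≤ c1 := by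
    obtain ⟨i, hi⟩ := Finite.exists_max (fun i => w0 ⬝ᵥ v i)
    exact ⟨_, hw0 i, hi⟩
  obtain ⟨δ, hδ, hδ'⟩ := exists_delta v k hneg
  -- the choice function
  have hF : ∀ Z : Finset ι, ∃ F : Finset ι, F.card = k ∧ (k + 1 ≤ Z.card → Z.card ≤ 2 * k →
      F ⊆ Z ∧ ∀ Z' : Finset ι, Z' ⊆ Z → k + 1 ≤ Z'.card → ∀ m ∈ Z', (∀ j ∈ Z', m ≤ j) → m ∈ F) := by
    intro Z
    by_cases h : k + 1 ≤ Z.card ∧ Z.card ≤ 2 * k
    · obtain ⟨F, h1, h2, h3⟩ := exists_F Z h.1 h.2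
      exact ⟨F, h2, fun _ _ => ⟨h1, h3⟩⟩
    · obtain ⟨K, hK⟩ := hPne
      exact ⟨K, (hPmem K).1 hK, fun h1 h2 => absurd ⟨h1, h2⟩ h⟩
  choose F hFcard hFprop using hF
  -- the parameters
  set n : ℝ := (Fintype.card ι : ℝ) with hnn
  have hn0 : 0 < n := by rw [hnn]; exact_mod_cast hcardpos
  have hkpos : (0 : ℝ) < k := by exact_mod_cast hk
  set M : ℝ := n * (Cu * (2 * k / κ)) with hM
  have hM0 : 0 ≤ M := by positivity
  set ε : ℝ := min (1 / 2) (δ / (c1 * (M + 1))) with hε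
  have hε0 : 0 < ε := lt_min (by norm_num) (by positivity)
  have hε1 : ε ≤ 1 / 2 := min_le_left _ _
  have hε2 : ε * c1 * (M + 1) ≤ δ := by
    have : ε ≤ δ / (c1 * (M + 1)) := min_le_right _ _
    rw [le_div_iff₀ (by positivity)] at this
    linarith
  -- the points and the polytope W
  set be : Finset ι → Fin D → ℝ := fun K => (1 - ε) • b K + ε • w0 with hbe
  have hbedot : ∀ K i, be K ⬝ᵥ v i = (1 - ε) * (b K ⬝ᵥ v i) + ε * (w0 ⬝ᵥ v i) := by
    intro K i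
    rw [hbe]
    simp only [add_dotProduct, smul_dotProduct, smul_eq_mul]
  have hbnn : ∀ K, K.card = k → ∀ i, 0 ≤ b K ⬝ᵥ v i := by
    intro K hK i
    by_cases hi : i ∈ K
    · rw [hb0 K hK i hi]
    · exact (hb1 K hK i hi).le
  have hbepos : ∀ K, K.card = k → ∀ i, 0 < be K ⬝ᵥ v i := by
    intro K hK i
    rw [hbedot]
    have h1 := mul_nonneg (show 0 ≤ 1 - ε by linarith) (hbnn K hK i)
    have h2 := mul_pos hε0 (hw0 i)
    linarith
  set W : Set (Fin D → ℝ) := convexHull ℝ (be '' (P : Set (Finset ι))) with hW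
  have hWc : IsCompact W := (P.finite_toSet.image be).isCompact_convexHull ℝ
  have hWconv : Convex ℝ W := convex_convexHull ℝ _
  have hWne : W.Nonempty := by
    obtain ⟨K, hK⟩ := hPne
    exact ⟨be K, subset_convexHull ℝ _ ⟨K, hK, rfl⟩⟩
  have hWpos : ∀ w ∈ W, ∀ i, 0 < w ⬝ᵥ v i := by
    intro w hw i
    have hconv : Convex ℝ {w : Fin D → ℝ | 0 < w ⬝ᵥ v i} := by
      intro x hx y hy a c ha hc hac
      simp only [mem_ofPred_eq] at hx hy ⊢
      rw [add_dotProduct, smul_dotProduct, smul_dotProduct, smul_eq_mul, smul_eq_mul]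
      rcases ha.lt_or_eq with h | h
      · have := mul_pos h hx
        have := mul_nonneg hc hy.le
        linarith
      · have hc1 : c = 1 := by linarith
        rw [← h, hc1]; linarith
    have hsub : W ⊆ {w : Fin D → ℝ | 0 < w ⬝ᵥ v i} := by
      refine convexHull_min ?_ hconv
      rintro _ ⟨K, hK, rfl⟩
      exact hbepos K ((hPmem K).1 hK) i
    exact hsub hw
  have hbbW : ∀ Z, be (F Z) ∈ W := fun Z =>
    subset_convexHull ℝ _ ⟨F Z, (hPmem _).2 (hFcard Z), rfl⟩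
  obtain ⟨w, hwW, s, hsdep, hs0, hspsd, hfix⟩ := exists_fixed_pair v W hWc hWconv hWne hWpos
    (fun w hw y h1 h2 h3 => tau_pos v hspan w0 hw0 k hkn
      (fun K hK => ⟨b K, hb0 K hK, hb1 K hK⟩) hn w (hWpos w hw) y h1 h2 h3)
    (fun w hw => hbad0 w (hWpos w hw))
    (Xi k (fun Z => be (F Z)))
    ((Xi_continuousOn k _).mono fun s hs => hneg s hs.1 hs.2)
    (fun s h1 h2 => Xi_mem k _ W hWconv hbbW s (hneg s h1 h2))
  have hk1 := hneg s hsdep hs0
  have hk2 := hnegle w (hWpos w hwW) s hspsd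
  -- the smallest level set and its minimum
  obtain ⟨Z0, hZ0, hZ0min⟩ := exists_min_lev hk1
  have hZ0card := (mem_lev.1 hZ0).1
  have hZ0ne : Z0.Nonempty := Finset.card_pos.1 (by omega)
  set m : ι := Z0.min' hZ0ne with hm
  have hmZ0 : m ∈ Z0 := Z0.min'_mem hZ0ne
  have hmF : ∀ Z ∈ lev k s, m ∈ F Z := by
    intro Z hZ
    have h1 := (mem_lev.1 hZ).1
    have h2 : Z.card ≤ 2 * k := (Finset.card_le_card (lev_subset_negSet hZ)).trans hk2
    exact (hFprop Z h1 h2).2 Z0 (hZ0min Z hZ) hZ0card m hmZ0 fun j hj => Z0.min'_le j hj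
  -- value of w at v m
  have hwdot : ∀ i, w ⬝ᵥ v i = ∑ Z ∈ lev k s, wt Z s / tot k s * (be (F Z) ⬝ᵥ v i) := by
    intro i
    rw [← hfix, Xi, sum_dotProduct]
    symm
    have hsub : lev k s ⊆ ZZ ι k := fun Z hZ => (mem_ZZ k Z).2 (mem_lev.1 hZ).1
    rw [← Finset.sum_subset hsub]
    · refine Finset.sum_congr rfl fun Z _ => ?_
      rw [smul_dotProduct, smul_eq_mul]
    · intro Z hZ hZ'
      rw [mem_ZZ] at hZ
      rw [mem_lev, not_and] at hZ'
      have : wt Z s = 0 := le_antisymm (not_lt.1 (hZ' hZ)) (wt_nonneg Z s)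
      rw [this, zero_div, zero_smul, zero_dotProduct]
  have hlevsum : ∑ Z ∈ lev k s, wt Z s / tot k s = 1 := by
    rw [← sum_wt hk1]
    refine Finset.sum_subset (fun Z hZ => (mem_ZZ k Z).2 (mem_lev.1 hZ).1) ?_
    intro Z hZ hZ'
    rw [mem_ZZ] at hZ
    rw [mem_lev, not_and] at hZ'
    have : wt Z s = 0 := le_antisymm (not_lt.1 (hZ' hZ)) (wt_nonneg Z s)
    rw [this, zero_div]
  have hwm : w ⬝ᵥ v m = ε * (w0 ⬝ᵥ v m) := by
    rw [hwdot m]
    have : ∀ Z ∈ lev k s, wt Z s / tot k s * (be (F Z) ⬝ᵥ v m)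
        = wt Z s / tot k s * (ε * (w0 ⬝ᵥ v m)) := by
      intro Z hZ
      rw [hbedot, hb0 (F Z) (hFcard Z) m (hmF Z hZ)]
      ring
    rw [Finset.sum_congr rfl this, ← Finset.sum_mul, hlevsum, one_mul]
  -- s m is very negative
  have hsm : s m ≤ -δ * ‖s‖ := by
    by_contra hlt
    push Not at hlt
    obtain ⟨T, hT, hT'⟩ := hδ' s hsdep hs0
    set Z1 : Finset ι := Finset.univ.filter fun j => s j < s m with hZ1
    have hZ1card : k + 1 ≤ Z1.card := by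
      refine hT.trans (Finset.card_le_card fun i hi => ?_)
      rw [hZ1, Finset.mem_filter]
      exact ⟨Finset.mem_univ _, (hT' i hi).trans hlt⟩
    have hsm0 : s m < 0 := ((wt_pos_iff Z0 s).1 (mem_lev.1 hZ0).2).1 m hmZ0
    have hZ1pos : 0 < wt Z1 s := by
      rw [wt_pos_iff]
      refine ⟨fun i hi => ?_, fun i hi j hj => ?_⟩
      · exact ((Finset.mem_filter.1 hi).2).trans hsm0
      · have h1 := (Finset.mem_filter.1 hi).2
        have h2 : ¬ s j < s m := fun h => hj (Finset.mem_filter.2 ⟨Finset.mem_univ _, h⟩)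
        linarith [not_lt.1 h2]
    have := hZ0min Z1 (mem_lev.2 ⟨hZ1card, hZ1pos⟩) hmZ0
    exact lt_irrefl _ (Finset.mem_filter.1 this).2
  -- heavy set
  obtain ⟨Zs, hZs, hheavy⟩ := exists_heavy hk1 hk2
  have hwl : ∀ l ∉ F Zs, κ / (2 * k) ≤ w ⬝ᵥ v l := by
    intro l hl
    rw [hwdot l]
    have h1 : wt Zs s / tot k s * (be (F Zs) ⬝ᵥ v l)
        ≤ ∑ Z ∈ lev k s, wt Z s / tot k s * (be (F Z) ⬝ᵥ v l) := by
      refine Finset.single_le_sum (f := fun Z => wt Z s / tot k s * (be (F Z) ⬝ᵥ v l))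
        (fun Z _ => ?_) hZs
      exact mul_nonneg (div_nonneg (wt_nonneg Z s) (tot_pos hk1).le) (hbepos _ (hFcard Z) l).le
    have h2 : κ / 2 ≤ be (F Zs) ⬝ᵥ v l := by
      rw [hbedot]
      have h3 := hκ' (F Zs) (hFcard Zs) l hl
      have h4 := mul_pos hε0 (hw0 l)
      nlinarith
    have h3 : 1 / (k : ℝ) * (κ / 2) ≤ wt Zs s / tot k s * (be (F Zs) ⬝ᵥ v l) :=
      mul_le_mul hheavy h2 (by positivity) (div_nonneg (wt_nonneg Zs s) (tot_pos hk1).le)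
    have h4 : 1 / (k : ℝ) * (κ / 2) = κ / (2 * k) := by field_simp
    linarith
  -- the final estimate
  have hmFs := hmF Zs hZs
  set u := ud (F Zs) m with hu
  have hu1 : u ⬝ᵥ v m = 1 := hud1 (F Zs) m (hFcard Zs) hmFs
  have hu2 : ∀ j ∈ F Zs, j ≠ m → u ⬝ᵥ v j = 0 := hud2 (F Zs) m (hFcard Zs) hmFs
  have hns : 0 < ‖s‖ := norm_pos_iff.2 hs0
  have hPhi : Phi v w s u ≤ -δ * ‖s‖ / (ε * c1) + n * (‖s‖ * (Cu * (2 * k / κ))) := by
    unfold Phi
    rw [← Finset.add_sum_erase Finset.univ _ (Finset.mem_univ m)]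
    refine add_le_add ?_ ?_
    · rw [hu1, one_pow, mul_one, hwm]
      have h1 : 0 < ε * (w0 ⬝ᵥ v m) := mul_pos hε0 (hw0 m)
      have h2 : ε * (w0 ⬝ᵥ v m) ≤ ε * c1 := mul_le_mul_of_nonneg_left (hc1' m) hε0.le
      rw [div_le_div_iff₀ h1 (by positivity)]
      have h3 : 0 < δ * ‖s‖ := by positivity
      nlinarith
    · have hterm : ∀ i ∈ Finset.univ.erase m, s i / (w ⬝ᵥ v i) * (u ⬝ᵥ v i) ^ 2
          ≤ ‖s‖ * (Cu * (2 * k / κ)) := by
        intro i hi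
        have him : i ≠ m := (Finset.mem_erase.1 hi).1
        by_cases hiF : i ∈ F Zs
        · rw [hu2 i hiF him]
          have : 0 ≤ ‖s‖ * (Cu * (2 * k / κ)) := by positivity
          simpa using this
        · have h1 := hwl i hiF
          have h2 : 0 < κ / (2 * k) := by positivity
          have h3 : s i ≤ ‖s‖ := (le_abs_self _).trans (norm_le_pi_norm s i)
          have h4 : s i / (w ⬝ᵥ v i) ≤ ‖s‖ * (2 * k / κ) := by
            have h5 : s i / (w ⬝ᵥ v i) ≤ ‖s‖ / (w ⬝ᵥ v i) :=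
              div_le_div_of_nonneg_right h3 (hWpos w hwW i).le
            have h6 : ‖s‖ / (w ⬝ᵥ v i) ≤ ‖s‖ / (κ / (2 * k)) :=
              div_le_div_of_nonneg_left hns.le h2 h1
            have h7 : ‖s‖ / (κ / (2 * k)) = ‖s‖ * (2 * k / κ) := by
              rw [div_div_eq_mul_div, mul_div_assoc]
            linarith
          have h8 : 0 ≤ ‖s‖ * (2 * k / κ) := by positivity
          calc s i / (w ⬝ᵥ v i) * (u ⬝ᵥ v i) ^ 2
              ≤ ‖s‖ * (2 * k / κ) * (u ⬝ᵥ v i) ^ 2 :=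
                mul_le_mul_of_nonneg_right h4 (sq_nonneg _)
            _ ≤ ‖s‖ * (2 * k / κ) * Cu := mul_le_mul_of_nonneg_left (hCu _ _ _) h8
            _ = ‖s‖ * (Cu * (2 * k / κ)) := by ring
      refine (Finset.sum_le_card_nsmul _ _ _ hterm).trans ?_
      rw [nsmul_eq_mul]
      have h1 : ((Finset.univ.erase m : Finset ι).card : ℝ) ≤ n := by
        rw [hnn, ← Finset.card_univ]
        exact_mod_cast Finset.card_le_card (Finset.erase_subset _ _)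
      exact mul_le_mul_of_nonneg_right h1 (by positivity)
  have hpos := hspsd u
  have h1 : n * (‖s‖ * (Cu * (2 * k / κ))) = M * ‖s‖ := by rw [hM]; ring
  have h2 : -δ * ‖s‖ / (ε * c1) ≤ -(M + 1) * ‖s‖ := by
    rw [div_le_iff₀ (by positivity)]
    nlinarith
  rw [h1] at hPhi
  nlinarith

end MPd0c340
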