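import Mathlib
import Pool.Agent.MP_d0c340_co.Defs

/-!
# Farkas step: no bad dependency gives a Lorentzian form
-/

open Set Matrix Topology

namespace MPd0c340

/-- The matrices whose quadratic form is positive on `w^⊥ \ {0}`. -/
private def posSet {D : ℕ} (w : Fin D → ℝ) : Set (Matrix (Fin D) (Fin D) ℝ) :=
  {M | ∀ u, u ≠ 0 → w ⬝ᵥ u = 0 → 0 < u ⬝ᵥ M *ᵥ u}

private theorem posSet_convex {D : ℕ} (w : Fin D → ℝ) : Convex ℝ (posSet w) := by
  intro M hM N hN a b ha hb hab u hu hwu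
  have h1 := hM u hu hwu
  have h2 := hN u hu hwu
  have h3 : u ⬝ᵥ (a • M + b • N) *ᵥ u = a * (u ⬝ᵥ M *ᵥ u) + b * (u ⬝ᵥ N *ᵥ u) := by
    rw [Matrix.add_mulVec, Matrix.smul_mulVec, Matrix.smul_mulVec, dotProduct_add,
      dotProduct_smul, dotProduct_smul, smul_eq_mul, smul_eq_mul]
  rw [h3]
  rcases ha.eq_or_lt with rfl | ha
  · have hb1 : b = 1 := by linarith
    subst hb1
    simpa using h2
  · have := mul_pos ha h1
    have := mul_nonneg hb h2.le
    linarith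

private theorem posSet_isOpen {D : ℕ} (w : Fin D → ℝ) : IsOpen (posSet w) := by
  have hS : IsCompact (Metric.sphere (0 : Fin D → ℝ) 1 ∩ {u | w ⬝ᵥ u = 0}) := by
    refine (isCompact_sphere _ _).inter_right ?_
    exact isClosed_eq (by fun_prop) continuous_const
  have hset : posSet w = {M | ∀ u ∈ Metric.sphere (0 : Fin D → ℝ) 1 ∩ {u | w ⬝ᵥ u = 0},
      0 < u ⬝ᵥ M *ᵥ u} := by
    ext M
    constructor
    · intro hM u hu
      refine hM u ?_ hu.2
      rintro rfl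
      have := hu.1
      simp at this
    · intro hM u hu hwu
      have hn : 0 < ‖u‖ := norm_pos_iff.mpr hu
      have h1 := hM (‖u‖⁻¹ • u) ⟨by simp [norm_smul, hn.ne'], by
        simp [dotProduct_smul, hwu]⟩
      have h2 : (‖u‖⁻¹ • u) ⬝ᵥ M *ᵥ (‖u‖⁻¹ • u) = ‖u‖⁻¹ * ‖u‖⁻¹ * (u ⬝ᵥ M *ᵥ u) := by
        rw [Matrix.mulVec_smul, dotProduct_smul, smul_dotProduct]
        simp [mul_assoc]
      rw [h2] at h1
      have h3 : 0 < ‖u‖⁻¹ * ‖u‖⁻¹ := by positivity
      exact (pos_iff_pos_of_mul_pos h1).mp h3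
  rw [hset, isOpen_iff_mem_nhds]
  intro M hM
  have key := hS.eventually_forall_of_forall_eventually (x₀ := M)
    (P := fun N u => 0 < u ⬝ᵥ N *ᵥ u) (fun u hu => ?_)
  · exact key
  · have hc : Continuous (fun z : Matrix (Fin D) (Fin D) ℝ × (Fin D → ℝ) => z.2 ⬝ᵥ z.1 *ᵥ z.2) := by
      fun_prop
    exact (hc.continuousAt).eventually (lt_mem_nhds (hM u hu))

/-- Evaluation of the quadratic form of `M` at `x`. -/
private def evq {D : ℕ} (x : Fin D → ℝ) : Matrix (Fin D) (Fin D) ℝ →ₗ[ℝ] ℝ where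
  toFun M := x ⬝ᵥ M *ᵥ x
  map_add' M N := by rw [Matrix.add_mulVec, dotProduct_add]
  map_smul' c M := by rw [Matrix.smul_mulVec, dotProduct_smul]; rfl

private theorem evq_apply {D : ℕ} (x : Fin D → ℝ) (M : Matrix (Fin D) (Fin D) ℝ) :
    evq x M = x ⬝ᵥ M *ᵥ x := rfl

private theorem evq_vecMulVec {D : ℕ} (x a b : Fin D → ℝ) :
    evq x (Matrix.vecMulVec a b) = (x ⬝ᵥ a) * (b ⬝ᵥ x) := by
  rw [evq_apply]
  simp only [dotProduct, Matrix.mulVec, Matrix.vecMulVec_apply, Finset.mul_sum, Finset.sum_mul]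
  rw [Finset.sum_comm]
  refine Finset.sum_congr rfl fun i _ => Finset.sum_congr rfl fun j _ => ?_
  ring

private theorem evq_one {D : ℕ} (x : Fin D → ℝ) : evq x 1 = x ⬝ᵥ x := by
  rw [evq_apply, Matrix.one_mulVec]

theorem farkas {ι : Type} [Fintype ι] {D : ℕ} (v : ι → Fin D → ℝ) (w : Fin D → ℝ)
    (hw : ∀ i, 0 < w ⬝ᵥ v i)
    (hno : ¬ ∃ y : ι → ℝ, (∑ i, y i • v i = 0) ∧ (∀ u, 0 ≤ Phi v w y u) ∧ ∃ u, 0 < Phi v w y u) :
    ∃ M : Matrix (Fin D) (Fin D) ℝ, M.IsSymm ∧ (∀ i, v i ⬝ᵥ M *ᵥ v i = 0) ∧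
      ∀ u, u ≠ 0 → w ⬝ᵥ u = 0 → 0 < u ⬝ᵥ M *ᵥ u := by
  classical
  set L : Submodule ℝ (Matrix (Fin D) (Fin D) ℝ) := ⨅ i, LinearMap.ker (evq (v i)) with hL
  have hmemL : ∀ M, M ∈ L ↔ ∀ i, v i ⬝ᵥ M *ᵥ v i = 0 := by
    intro M
    rw [hL, Submodule.mem_iInf]
    exact forall_congr' fun i => by rw [LinearMap.mem_ker, evq_apply]
  by_cases hdis : Disjoint (posSet w) (L : Set (Matrix (Fin D) (Fin D) ℝ))
  swap
  · rw [Set.not_disjoint_iff] at hdis
    obtain ⟨M, hM, hML⟩ := hdis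
    have hML' := (hmemL M).1 hML
    have hq : ∀ u, u ⬝ᵥ (M + Mᵀ) *ᵥ u = 2 * (u ⬝ᵥ M *ᵥ u) := by
      intro u
      have h : u ⬝ᵥ Mᵀ *ᵥ u = u ⬝ᵥ M *ᵥ u := by
        rw [Matrix.mulVec_transpose, dotProduct_comm, ← Matrix.dotProduct_mulVec]
      rw [Matrix.add_mulVec, dotProduct_add, h]
      ring
    refine ⟨M + Mᵀ, ?_, ?_, ?_⟩
    · rw [Matrix.IsSymm, Matrix.transpose_add, Matrix.transpose_transpose, add_comm]
    · intro i; rw [hq, hML' i, mul_zero]
    · intro u hu hwu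
      rw [hq]
      have := hM u hu hwu
      linarith
  exfalso
  obtain ⟨f, c, hf1, hf2⟩ := geometric_hahn_banach_open (posSet_convex w) (posSet_isOpen w)
    L.convex hdis
  have hc0 : c ≤ 0 := by simpa using hf2 0 L.zero_mem
  have hfL : ∀ M ∈ L, f M = 0 := by
    intro M hM
    by_contra hne
    have h1 := hf2 (((c - 1) / f M) • M) (L.smul_mem _ hM)
    rw [map_smul, smul_eq_mul, div_mul_cancel₀ _ hne] at h1
    linarith
  have hfO : ∀ M ∈ posSet w, f M < 0 := fun M hM => (hf1 M hM).trans_le hc0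
  -- `-f` is a combination of the evaluations
  have hspan : (-(f : Matrix (Fin D) (Fin D) ℝ →ₗ[ℝ] ℝ)) ∈
      Submodule.span ℝ (Set.range fun i => evq (v i)) := by
    apply mem_span_of_iInf_ker_le_ker
    intro M hM
    rw [LinearMap.mem_ker, LinearMap.neg_apply]
    have := hfL M hM
    simp only [ContinuousLinearMap.coe_coe]
    rw [this, neg_zero]
  obtain ⟨lam, hlam⟩ := (Submodule.mem_span_range_iff_exists_fun ℝ).1 hspan
  have hg : ∀ M, -f M = ∑ i, lam i * evq (v i) M := by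
    intro M
    have := congrArg (fun φ : Matrix (Fin D) (Fin D) ℝ →ₗ[ℝ] ℝ => φ M) hlam
    simp only [LinearMap.sum_apply, LinearMap.smul_apply, smul_eq_mul, LinearMap.neg_apply,
      ContinuousLinearMap.coe_coe] at this
    exact this.symm
  have hpos : ∀ M ∈ posSet w, 0 < ∑ i, lam i * evq (v i) M := by
    intro M hM
    rw [← hg]
    have := hfO M hM
    linarith
  have hself : ∀ u : Fin D → ℝ, u ≠ 0 → 0 < u ⬝ᵥ u := by
    intro u hu
    have := dotProduct_self_eq_zero.not.2 hu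
    have h2 : 0 ≤ u ⬝ᵥ u := by
      unfold dotProduct; exact Finset.sum_nonneg fun i _ => mul_self_nonneg _
    exact lt_of_le_of_ne h2 (Ne.symm this)
  -- the general member
  have hmem : ∀ (z a : Fin D → ℝ) (ε t : ℝ), 0 < ε →
      (ε • (1 : Matrix (Fin D) (Fin D) ℝ) + Matrix.vecMulVec a a + t • Matrix.vecMulVec w z) ∈
        posSet w := by
    intro z a ε t hε u hu hwu
    have h1 : u ⬝ᵥ (ε • (1 : Matrix (Fin D) (Fin D) ℝ) + Matrix.vecMulVec a a
        + t • Matrix.vecMulVec w z) *ᵥ u = ε * (u ⬝ᵥ u) + (u ⬝ᵥ a) * (a ⬝ᵥ u)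
          + t * ((u ⬝ᵥ w) * (z ⬝ᵥ u)) := by
      rw [← evq_apply, map_add, map_add, map_smul, map_smul, evq_one, evq_vecMulVec,
        evq_vecMulVec]
      rfl
    rw [h1, dotProduct_comm u w, hwu, zero_mul, mul_zero, add_zero, dotProduct_comm a u]
    have := mul_pos hε (hself u hu)
    have := mul_self_nonneg (u ⬝ᵥ a)
    linarith
  have hval : ∀ (z a : Fin D → ℝ) (ε t : ℝ), 0 < ε →
      0 < ε * (∑ i, lam i * (v i ⬝ᵥ v i)) + (∑ i, lam i * (a ⬝ᵥ v i) ^ 2)
        + t * ∑ i, lam i * (w ⬝ᵥ v i) * (z ⬝ᵥ v i) := by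
    intro z a ε t hε
    have h1 := hpos _ (hmem z a ε t hε)
    have h2 : ∑ i, lam i * evq (v i) (ε • (1 : Matrix (Fin D) (Fin D) ℝ) + Matrix.vecMulVec a a
        + t • Matrix.vecMulVec w z) = ε * (∑ i, lam i * (v i ⬝ᵥ v i))
          + (∑ i, lam i * (a ⬝ᵥ v i) ^ 2)
        + t * ∑ i, lam i * (w ⬝ᵥ v i) * (z ⬝ᵥ v i) := by
      rw [Finset.mul_sum, Finset.mul_sum, ← Finset.sum_add_distrib, ← Finset.sum_add_distrib]
      refine Finset.sum_congr rfl fun i _ => ?_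
      rw [map_add, map_add, map_smul, map_smul, evq_one, evq_vecMulVec, evq_vecMulVec,
        smul_eq_mul, smul_eq_mul, dotProduct_comm (v i) a, dotProduct_comm (v i) w]
      ring
    rw [h2] at h1
    exact h1
  apply hno
  have hPhi : ∀ u, Phi v w (fun i => lam i * (w ⬝ᵥ v i)) u = ∑ i, lam i * (u ⬝ᵥ v i) ^ 2 := by
    intro u
    unfold Phi
    refine Finset.sum_congr rfl fun i _ => ?_
    rw [mul_div_cancel_right₀ _ (hw i).ne']
  refine ⟨fun i => lam i * (w ⬝ᵥ v i), ?_, ?_, ?_⟩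
  · -- dependency
    have hz : ∀ z : Fin D → ℝ, ∑ i, lam i * (w ⬝ᵥ v i) * (z ⬝ᵥ v i) = 0 := by
      intro z
      by_contra hne
      have h1 := hval z 0 1 (-(∑ i, lam i * (v i ⬝ᵥ v i)) / ∑ i, lam i * (w ⬝ᵥ v i) * (z ⬝ᵥ v i))
        one_pos
      rw [div_mul_cancel₀ _ hne] at h1
      simp at h1
    funext j
    have := hz (Pi.single j 1)
    simpa [Finset.sum_apply, mul_assoc] using this
  · intro u
    rw [hPhi]
    by_contra hneg
    push Not at hneg
    set A := ∑ i, lam i * (v i ⬝ᵥ v i) with hA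
    set B := ∑ i, lam i * (u ⬝ᵥ v i) ^ 2 with hB
    have h1 := hval 0 u (-B / (|A| + 1)) 0 (by
      have : 0 < |A| + 1 := by positivity
      exact div_pos (by linarith) this)
    rw [← hB, zero_mul, add_zero] at h1
    have h2 : -B / (|A| + 1) * A ≤ -B / (|A| + 1) * |A| :=
      mul_le_mul_of_nonneg_left (le_abs_self A) (div_nonneg (by linarith) (by positivity))
    have h3 : -B / (|A| + 1) * |A| ≤ -B := by
      rw [div_mul_eq_mul_div, div_le_iff₀ (by positivity)]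
      nlinarith [abs_nonneg A]
    linarith
  · by_contra hall
    push Not at hall
    have h1 := hval 0 0 1 0 one_pos
    have h2 : ∑ i, lam i * (v i ⬝ᵥ v i) = ∑ j : Fin D, ∑ i, lam i * ((Pi.single j (1 : ℝ)) ⬝ᵥ v i) ^ 2 := by
      rw [Finset.sum_comm]
      refine Finset.sum_congr rfl fun i _ => ?_
      rw [← Finset.mul_sum]
      congr 1
      simp only [single_dotProduct, one_mul]
      unfold dotProduct
      exact Finset.sum_congr rfl fun j _ => by ring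
    have h3 : ∑ j : Fin D, ∑ i, lam i * ((Pi.single j (1 : ℝ)) ⬝ᵥ v i) ^ 2 ≤ 0 := by
      refine Finset.sum_nonpos fun j _ => ?_
      have := hall (Pi.single j 1)
      rw [hPhi] at this
      exact this
    simp only [one_mul, zero_mul, add_zero, zero_dotProduct] at h1
    simp at h1
    rw [h2] at h1
    linarith

end MPd0c340
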