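import Mathlib
import Pool.Agent.MP_d0c340_co.Defs

/-!
# From a polytope to vector data
-/

open Set Matrix

namespace MPd0c340

namespace PolyData

variable {d : ℕ}

theorem hom_zero (x : E d) : hom x 0 = 1 := rfl

theorem hom_succ (x : E d) (i : Fin d) : hom x i.succ = x i := rfl

theorem hom_combo (x y : E d) {a b : ℝ} (hab : a + b = 1) :
    hom (a • x + b • y) = a • hom x + b • hom y := by
  funext i
  refine Fin.cases ?_ (fun i => ?_) i
  · simp [hom_zero, hab]
  · simp [hom_succ]

theorem zero_on_convexHull (u : Fin (d + 1) → ℝ) (V : Set (E d)) (hu : ∀ x ∈ V, u ⬝ᵥ hom x = 0) :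
    ∀ x ∈ convexHull ℝ V, u ⬝ᵥ hom x = 0 := by
  intro x hx
  have hconv : Convex ℝ {x : E d | u ⬝ᵥ hom x = 0} := by
    intro x hx y hy a b _ _ hab
    show u ⬝ᵥ hom (a • x + b • y) = 0
    have hx' : u ⬝ᵥ hom x = 0 := hx
    have hy' : u ⬝ᵥ hom y = 0 := hy
    rw [hom_combo x y hab, dotProduct_add, dotProduct_smul, dotProduct_smul, hx', hy']
    simp
  exact convexHull_min (t := {x : E d | u ⬝ᵥ hom x = 0}) hu hconv hx

end PolyData

open PolyData

theorem vertices_finite {d : ℕ} (P : Set (E d)) (hP : IsPolytope P) : (vertices P).Finite := by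
  obtain ⟨⟨S, hSf, hPS⟩, -⟩ := hP
  rw [hPS]
  exact hSf.subset extremePoints_convexHull_subset

theorem convexHull_vertices {d : ℕ} (P : Set (E d)) (hP : IsPolytope P) :
    convexHull ℝ (vertices P) = P := by
  have hfin := vertices_finite P hP
  obtain ⟨⟨S, hSf, hPS⟩, -⟩ := hP
  have hcomp : IsCompact P := by
    rw [hPS]
    exact hSf.isCompact_convexHull ℝ
  have hconv : Convex ℝ P := by
    rw [hPS]
    exact convex_convexHull ℝ S
  have h := closure_convexHull_extremePoints hcomp hconv
  have hcl : IsClosed (convexHull ℝ (vertices P)) := hfin.isClosed_convexHull ℝ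
  exact hcl.closure_eq.symm.trans h

theorem span_vertices {d : ℕ} (P : Set (E d)) (hP : IsPolytope P) (u : Fin (d + 1) → ℝ)
    (hu : ∀ x ∈ vertices P, u ⬝ᵥ hom x = 0) : u = 0 := by
  have h := zero_on_convexHull u _ hu
  rw [convexHull_vertices P hP] at h
  obtain ⟨-, ⟨x0, hx0⟩⟩ := hP
  obtain ⟨ε, hε, hball⟩ := Metric.isOpen_iff.1 isOpen_interior x0 hx0
  have hx0P : x0 ∈ P := interior_subset hx0
  have hdot : ∀ x : E d, u ⬝ᵥ hom x = u 0 + ∑ i : Fin d, u i.succ * x i := by
    intro x
    rw [dotProduct, Fin.sum_univ_succ]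
    simp [hom_zero, hom_succ]
  have hsucc : ∀ i : Fin d, u i.succ = 0 := by
    intro i
    have hmem : x0 + (ε / 2) • (EuclideanSpace.single i (1 : ℝ)) ∈ P := by
      refine interior_subset (hball ?_)
      rw [Metric.mem_ball, dist_eq_norm, add_sub_cancel_left, norm_smul,
        PiLp.norm_single]
      simp only [Real.norm_eq_abs, norm_one, mul_one]
      rw [abs_of_pos (by linarith)]
      linarith
    have h1 := h _ hmem
    have h2 := h _ hx0P
    rw [hdot] at h1 h2
    have h3 : ∑ j : Fin d, u j.succ * (x0 + (ε / 2) • (EuclideanSpace.single i (1 : ℝ)) : E d) j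
        = ∑ j : Fin d, u j.succ * x0 j + (ε / 2) * u i.succ := by
      have : ∀ j : Fin d, u j.succ * (x0 + (ε / 2) • (EuclideanSpace.single i (1 : ℝ)) : E d) j
          = u j.succ * x0 j + (if j = i then (ε / 2) * u i.succ else 0) := by
        intro j
        by_cases hji : j = i
        · subst hji
          simp
          ring
        · simp [hji]
      rw [Finset.sum_congr rfl fun j _ => this j, Finset.sum_add_distrib]
      simp
    rw [h3] at h1
    have h4 : (ε / 2) * u i.succ = 0 := by linarith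
    rcases mul_eq_zero.1 h4 with h5 | h5
    · linarith
    · exact h5
  have h0 : u 0 = 0 := by
    have h2 := h _ hx0P
    rw [hdot] at h2
    simpa [hsucc] using h2
  funext i
  refine Fin.cases ?_ (fun i => ?_) i
  · exact h0
  · exact hsucc i

theorem card_vertices {d : ℕ} (P : Set (E d)) (hP : IsPolytope P) : d + 1 ≤ (vertices P).ncard := by
  have hfin := vertices_finite P hP
  have : Fintype (vertices P) := hfin.fintype
  let L : (Fin (d + 1) → ℝ) →ₗ[ℝ] (vertices P → ℝ) :=
    { toFun := fun u x => u ⬝ᵥ hom x.1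
      map_add' := fun u v => by
        funext x
        simp [add_dotProduct]
      map_smul' := fun c u => by
        funext x
        simp [smul_dotProduct] }
  have hL : Function.Injective L := by
    rw [← LinearMap.ker_eq_bot, LinearMap.ker_eq_bot']
    intro u hu
    refine span_vertices P hP u fun x hx => ?_
    exact congrFun hu ⟨x, hx⟩
  have h := LinearMap.finrank_le_finrank_of_injective hL
  rw [Module.finrank_fin_fun, Module.finrank_fintype_fun_eq_card] at h
  rwa [Set.ncard_eq_toFinset_card', Set.toFinset_card]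

theorem face_functional {d : ℕ} (P : Set (E d)) (hP : IsPolytope P) (k : ℕ) (hk : 1 ≤ k)
    (hN : KNeighborly k P) (K : Set (E d)) (hK : K ⊆ vertices P) (hcard : K.ncard = k) :
    ∃ b : Fin (d + 1) → ℝ, (∀ x ∈ K, b ⬝ᵥ hom x = 0) ∧ ∀ x ∈ vertices P, x ∉ K → 0 < b ⬝ᵥ hom x := by
  obtain ⟨F, hF, hFK⟩ := hN K hK hcard
  have hKne : K.Nonempty := by
    rw [nonempty_iff_ne_empty]
    rintro rfl
    rw [ncard_empty] at hcard
    omega
  obtain ⟨x0, hx0⟩ := hKne
  have hKF : K ⊆ F := by
    rw [← hFK]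
    exact extremePoints_subset
  obtain ⟨l, hl⟩ := hF ⟨x0, hKF hx0⟩
  have hx0' : x0 ∈ P ∧ ∀ y ∈ P, l y ≤ l x0 := by
    have := hKF hx0
    rw [hl] at this
    exact this
  have hVP : vertices P ⊆ P := extremePoints_subset
  obtain ⟨α, hα⟩ : ∃ α : Fin (d + 1) → ℝ, ∀ x : E d, α ⬝ᵥ hom x = l x0 - l x := by
    refine ⟨Fin.cons (l x0) (fun i => - l (EuclideanSpace.single i 1)), fun x => ?_⟩
    rw [dotProduct, Fin.sum_univ_succ]
    simp only [hom_zero, hom_succ, Fin.cons_zero, Fin.cons_succ, mul_one]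
    have hx : l x = ∑ i, l (EuclideanSpace.single i (1 : ℝ)) * x i := by
      conv_lhs => rw [← (EuclideanSpace.basisFun (Fin d) ℝ).sum_repr x]
      rw [map_sum]
      refine Finset.sum_congr rfl fun i _ => ?_
      rw [map_smul, smul_eq_mul, mul_comm]
      simp [EuclideanSpace.basisFun_apply]
    rw [hx, sub_eq_add_neg, ← Finset.sum_neg_distrib]
    simp
  refine ⟨α, fun x hx => ?_, fun x hx hxK => ?_⟩
  · rw [hα]
    have hx' := hKF hx
    rw [hl] at hx'
    have h1 := hx'.2 x0 hx0'.1
    have h2 := hx0'.2 x hx'.1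
    linarith
  · rw [hα]
    have h2 := hx0'.2 x (hVP hx)
    rcases h2.lt_or_eq with h3 | h3
    · linarith
    · exfalso
      apply hxK
      have hxF : x ∈ F := by
        rw [hl]
        exact ⟨hVP hx, fun y hy => by rw [h3]; exact hx0'.2 y hy⟩
      have hFP : F ⊆ P := IsExposed.subset hF
      rw [← hFK]
      exact inter_extremePoints_subset_extremePoints_of_subset hFP ⟨hxF, hx⟩

end MPd0c340
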