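import Mathlib
import Pool.Agent.MP_d0c340_co.Defs

/-!
# Projective transformations and face lattices

`A` invertible `(d+1) × (d+1)` matrix with `(A (1,x))_0 > 0` for all `x ∈ P`; `proj A` maps a polytope `P` to a
polytope with isomorphic face lattice.
-/

open Set Matrix

namespace MPd0c340

namespace Projective

variable {d : ℕ}

theorem hom_zero (x : E d) : hom x 0 = 1 := rfl

theorem hom_succ (x : E d) (i : Fin d) : hom x i.succ = x i := rfl

theorem proj_apply (A : Matrix (Fin (d + 1)) (Fin (d + 1)) ℝ) (x : E d) (i : Fin d) :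
    proj A x i = (A *ᵥ hom x) i.succ / (A *ᵥ hom x) 0 := rfl

theorem hom_combo (x y : E d) {a b : ℝ} (hab : a + b = 1) :
    hom (a • x + b • y) = a • hom x + b • hom y := by
  funext i
  refine Fin.cases ?_ (fun i => ?_) i
  · simp [hom_zero, hab]
  · simp [hom_succ]

theorem hom_proj (A : Matrix (Fin (d + 1)) (Fin (d + 1)) ℝ) (x : E d)
    (h : (A *ᵥ hom x) 0 ≠ 0) : hom (proj A x) = ((A *ᵥ hom x) 0)⁻¹ • (A *ᵥ hom x) := by
  funext i
  refine Fin.cases ?_ (fun i => ?_) i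
  · simp [hom_zero, h]
  · rw [hom_succ, proj_apply, Pi.smul_apply, smul_eq_mul, div_eq_inv_mul]

theorem mulVec_hom_proj (A B : Matrix (Fin (d + 1)) (Fin (d + 1)) ℝ) (hBA : B * A = 1) (x : E d)
    (h : (A *ᵥ hom x) 0 ≠ 0) : B *ᵥ hom (proj A x) = ((A *ᵥ hom x) 0)⁻¹ • hom x := by
  rw [hom_proj A x h, Matrix.mulVec_smul, Matrix.mulVec_mulVec, hBA, Matrix.one_mulVec]

theorem mulVec_hom_proj_zero (A B : Matrix (Fin (d + 1)) (Fin (d + 1)) ℝ) (hBA : B * A = 1)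
    (x : E d) (h : (A *ᵥ hom x) 0 ≠ 0) :
    (B *ᵥ hom (proj A x)) 0 = ((A *ᵥ hom x) 0)⁻¹ := by
  rw [mulVec_hom_proj A B hBA x h]
  simp [hom_zero]

theorem proj_proj (A B : Matrix (Fin (d + 1)) (Fin (d + 1)) ℝ) (hBA : B * A = 1)
    (x : E d) (h : (A *ᵥ hom x) 0 ≠ 0) : proj B (proj A x) = x := by
  ext i
  rw [proj_apply, mulVec_hom_proj A B hBA x h]
  simp only [Pi.smul_apply, smul_eq_mul, hom_succ, hom_zero, mul_one]
  field_simp

theorem proj_combo (A : Matrix (Fin (d + 1)) (Fin (d + 1)) ℝ) (x y : E d)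
    (hx : 0 < (A *ᵥ hom x) 0) (hy : 0 < (A *ᵥ hom y) 0) {a b : ℝ} (ha : 0 ≤ a) (hb : 0 ≤ b)
    (hab : a + b = 1) :
    0 < (A *ᵥ hom (a • x + b • y)) 0 ∧
    proj A (a • x + b • y) =
      (a * (A *ᵥ hom x) 0 / (a * (A *ᵥ hom x) 0 + b * (A *ᵥ hom y) 0)) • proj A x +
      (b * (A *ᵥ hom y) 0 / (a * (A *ᵥ hom x) 0 + b * (A *ᵥ hom y) 0)) • proj A y := by
  have hmul : A *ᵥ hom (a • x + b • y) = a • (A *ᵥ hom x) + b • (A *ᵥ hom y) := by
    rw [hom_combo x y hab, Matrix.mulVec_add, Matrix.mulVec_smul, Matrix.mulVec_smul]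
  have hpos : 0 < a * (A *ᵥ hom x) 0 + b * (A *ᵥ hom y) 0 := by
    rcases ha.eq_or_lt with h | h
    · have : b = 1 := by linarith
      subst this
      rw [← h]
      linarith
    · have h1 : 0 < a * (A *ᵥ hom x) 0 := mul_pos h hx
      have h2 : 0 ≤ b * (A *ᵥ hom y) 0 := mul_nonneg hb hy.le
      linarith
  refine ⟨?_, ?_⟩
  · rw [hmul]
    simpa using hpos
  · ext i
    rw [proj_apply, hmul]
    simp only [Pi.add_apply, Pi.smul_apply, smul_eq_mul, PiLp.add_apply, PiLp.smul_apply,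
      proj_apply]
    field_simp

theorem convex_preimage (A : Matrix (Fin (d + 1)) (Fin (d + 1)) ℝ) (K : Set (E d))
    (hK : Convex ℝ K) : Convex ℝ {x : E d | 0 < (A *ᵥ hom x) 0 ∧ proj A x ∈ K} := by
  rintro x ⟨hx, hxK⟩ y ⟨hy, hyK⟩ a b ha hb hab
  obtain ⟨h1, h2⟩ := proj_combo A x y hx hy ha hb hab
  refine ⟨h1, ?_⟩
  rw [h2]
  have hpos : 0 < a * (A *ᵥ hom x) 0 + b * (A *ᵥ hom y) 0 := by
    rcases ha.eq_or_lt with h | h
    · have : b = 1 := by linarith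
      subst this
      rw [← h]
      linarith
    · have h1 : 0 < a * (A *ᵥ hom x) 0 := mul_pos h hx
      have h2 : 0 ≤ b * (A *ᵥ hom y) 0 := mul_nonneg hb hy.le
      linarith
  refine hK hxK hyK ?_ ?_ ?_
  · exact div_nonneg (mul_nonneg ha hx.le) hpos.le
  · exact div_nonneg (mul_nonneg hb hy.le) hpos.le
  · field_simp

theorem pos_convexHull (A : Matrix (Fin (d + 1)) (Fin (d + 1)) ℝ) (S : Set (E d))
    (hS : ∀ x ∈ S, 0 < (A *ᵥ hom x) 0) : ∀ x ∈ convexHull ℝ S, 0 < (A *ᵥ hom x) 0 := by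
  intro x hx
  have h := convexHull_min (t := {x : E d | 0 < (A *ᵥ hom x) 0 ∧ proj A x ∈ (univ : Set (E d))})
    (fun x hx => ⟨hS x hx, mem_univ _⟩) (convex_preimage A univ convex_univ) hx
  exact h.1

theorem image_subset (A : Matrix (Fin (d + 1)) (Fin (d + 1)) ℝ)
    (S : Set (E d)) (hS : ∀ x ∈ S, 0 < (A *ᵥ hom x) 0) :
    proj A '' convexHull ℝ S ⊆ convexHull ℝ (proj A '' S) := by
  rintro _ ⟨x, hx, rfl⟩
  have h := convexHull_min
    (t := {x : E d | 0 < (A *ᵥ hom x) 0 ∧ proj A x ∈ convexHull ℝ (proj A '' S)})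
    (fun x hx => ⟨hS x hx, subset_convexHull _ _ (mem_image_of_mem _ hx)⟩)
    (convex_preimage A _ (convex_convexHull _ _)) hx
  exact h.2

theorem pos_image (A B : Matrix (Fin (d + 1)) (Fin (d + 1)) ℝ) (hBA : B * A = 1)
    (P : Set (E d)) (hpos : ∀ x ∈ P, 0 < (A *ᵥ hom x) 0) :
    ∀ y ∈ proj A '' P, 0 < (B *ᵥ hom y) 0 := by
  rintro _ ⟨x, hx, rfl⟩
  rw [mulVec_hom_proj_zero A B hBA x (hpos x hx).ne']
  exact inv_pos.2 (hpos x hx)

theorem image_image (A B : Matrix (Fin (d + 1)) (Fin (d + 1)) ℝ) (hBA : B * A = 1)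
    (P : Set (E d)) (hpos : ∀ x ∈ P, 0 < (A *ᵥ hom x) 0) :
    proj B '' (proj A '' P) = P := by
  ext x
  constructor
  · rintro ⟨_, ⟨z, hz, rfl⟩, rfl⟩
    rw [proj_proj A B hBA z (hpos z hz).ne']
    exact hz
  · intro hx
    exact ⟨proj A x, ⟨x, hx, rfl⟩, proj_proj A B hBA x (hpos x hx).ne'⟩

theorem continuous_hom : Continuous (fun x : E d => hom x) := by
  refine continuous_pi fun i => ?_
  refine Fin.cases ?_ (fun i => ?_) i
  · simp only [hom_zero]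
    exact continuous_const
  · simp only [hom_succ]
    fun_prop

theorem continuous_mulVec_hom (A : Matrix (Fin (d + 1)) (Fin (d + 1)) ℝ) (i : Fin (d + 1)) :
    Continuous (fun x : E d => (A *ᵥ hom x) i) := by
  have : (fun x : E d => (A *ᵥ hom x) i) = fun x : E d => ∑ j, A i j * hom x j := by
    funext x
    simp [Matrix.mulVec, dotProduct]
  rw [this]
  refine continuous_finsetSum _ fun j _ => ?_
  exact continuous_const.mul ((continuous_apply j).comp continuous_hom)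

theorem continuousOn_proj (A : Matrix (Fin (d + 1)) (Fin (d + 1)) ℝ) :
    ContinuousOn (proj A) {x : E d | 0 < (A *ᵥ hom x) 0} := by
  unfold proj
  refine (PiLp.continuous_toLp 2 _).comp_continuousOn ?_
  refine continuousOn_pi.2 fun i => ?_
  refine ContinuousOn.div (continuous_mulVec_hom A _).continuousOn
    (continuous_mulVec_hom A _).continuousOn ?_
  intro x hx
  exact (ne_of_gt hx)

theorem isExposed_image (A B : Matrix (Fin (d + 1)) (Fin (d + 1)) ℝ) (hBA : B * A = 1)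
    (P : Set (E d)) (hpos : ∀ x ∈ P, 0 < (A *ᵥ hom x) 0) (F : Set (E d))
    (hF : IsExposed ℝ P F) : IsExposed ℝ (proj A '' P) (proj A '' F) := by
  rintro ⟨_, ⟨x0, hx0, rfl⟩⟩
  obtain ⟨l, hl⟩ := hF ⟨x0, hx0⟩
  have hx0' : x0 ∈ P ∧ ∀ y ∈ P, l y ≤ l x0 := by rw [hl] at hx0; exact hx0
  obtain ⟨α, hα⟩ : ∃ α : Fin (d + 1) → ℝ, ∀ x : E d, α ⬝ᵥ hom x = l x0 - l x := by
    refine ⟨Fin.cons (l x0) (fun i => - l (EuclideanSpace.single i 1)), fun x => ?_⟩
    rw [dotProduct, Fin.sum_univ_succ]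
    simp only [hom_zero, hom_succ, Fin.cons_zero, Fin.cons_succ, mul_one]
    have hx : l x = ∑ i, l (EuclideanSpace.single i (1 : ℝ)) * x i := by
      conv_lhs => rw [← (EuclideanSpace.basisFun (Fin d) ℝ).sum_repr x]
      rw [map_sum]
      refine Finset.sum_congr rfl fun i _ => ?_
      rw [map_smul, smul_eq_mul, mul_comm]
      simp [EuclideanSpace.basisFun_apply]
    rw [hx, sub_eq_add_neg, ← Finset.sum_neg_distrib]
    simp
  set β : Fin (d + 1) → ℝ := α ᵥ* B with hβ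
  have hβP : ∀ x ∈ P, β ⬝ᵥ hom (proj A x) = ((A *ᵥ hom x) 0)⁻¹ * (l x0 - l x) := by
    intro x hx
    rw [hβ, ← Matrix.dotProduct_mulVec, mulVec_hom_proj A B hBA x (hpos x hx).ne',
      dotProduct_smul, hα, smul_eq_mul]
  let l' : E d →L[ℝ] ℝ := - ∑ i : Fin d, β i.succ • (EuclideanSpace.proj i : E d →L[ℝ] ℝ)
  have hl' : ∀ y : E d, l' y = β 0 - β ⬝ᵥ hom y := by
    intro y
    rw [dotProduct, Fin.sum_univ_succ]
    simp only [hom_zero, hom_succ, mul_one]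
    simp [l']
  refine ⟨l', ?_⟩
  ext y
  constructor
  · rintro ⟨x, hx, rfl⟩
    have hx' : x ∈ P ∧ ∀ y ∈ P, l y ≤ l x := by rw [hl] at hx; exact hx
    refine ⟨⟨x, hx'.1, rfl⟩, ?_⟩
    rintro _ ⟨z, hz, rfl⟩
    rw [hl', hl', hβP x hx'.1, hβP z hz]
    have e1 : l x0 - l x = 0 := by
      have := hx'.2 x0 hx0'.1
      have := hx0'.2 x hx'.1
      linarith
    have e2 : 0 ≤ ((A *ᵥ hom z) 0)⁻¹ * (l x0 - l z) :=
      mul_nonneg (inv_pos.2 (hpos z hz)).le (by linarith [hx0'.2 z hz])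
    rw [e1]
    linarith
  · rintro ⟨⟨x, hx, rfl⟩, hmax⟩
    refine ⟨x, ?_, rfl⟩
    have h := hmax _ ⟨x0, hx0'.1, rfl⟩
    rw [hl', hl', hβP x hx, hβP x0 hx0'.1] at h
    have hc : 0 < ((A *ᵥ hom x) 0)⁻¹ := inv_pos.2 (hpos x hx)
    have hle : ((A *ᵥ hom x) 0)⁻¹ * (l x0 - l x) ≤ 0 := by
      have : l x0 - l x0 = 0 := sub_self _
      rw [this] at h
      linarith
    have hle' : l x0 - l x ≤ 0 := by
      by_contra hcon
      push Not at hcon
      have := mul_pos hc hcon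
      linarith
    rw [hl]
    refine ⟨hx, fun y hy => ?_⟩
    have := hx0'.2 y hy
    linarith

end Projective

open Projective

theorem proj_image_convexHull {d : ℕ} (A : Matrix (Fin (d + 1)) (Fin (d + 1)) ℝ) (hA : IsUnit A.det)
    (S : Set (E d)) (hS : ∀ x ∈ S, 0 < (A *ᵥ hom x) 0) :
    proj A '' convexHull ℝ S = convexHull ℝ (proj A '' S) := by
  have hBA : A⁻¹ * A = 1 := Matrix.nonsing_inv_mul A hA
  have hAB : A * A⁻¹ = 1 := Matrix.mul_nonsing_inv A hA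
  refine Subset.antisymm (image_subset A S hS) ?_
  have hS' : ∀ y ∈ proj A '' S, 0 < (A⁻¹ *ᵥ hom y) 0 := pos_image A A⁻¹ hBA S hS
  have h1 := image_subset A⁻¹ (proj A '' S) hS'
  rw [image_image A A⁻¹ hBA S hS] at h1
  intro y hy
  refine ⟨proj A⁻¹ y, h1 ⟨y, hy, rfl⟩, ?_⟩
  exact proj_proj A⁻¹ A hAB y (pos_convexHull A⁻¹ _ hS' y hy).ne'

theorem proj_isPolytope {d : ℕ} (A : Matrix (Fin (d + 1)) (Fin (d + 1)) ℝ) (hA : IsUnit A.det)
    (P : Set (E d)) (hP : IsPolytope P) (hpos : ∀ x ∈ P, 0 < (A *ᵥ hom x) 0) :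
    IsPolytope (proj A '' P) := by
  have hBA : A⁻¹ * A = 1 := Matrix.nonsing_inv_mul A hA
  have hAB : A * A⁻¹ = 1 := Matrix.mul_nonsing_inv A hA
  obtain ⟨⟨S, hSf, hPS⟩, ⟨x0, hx0⟩⟩ := hP
  refine ⟨⟨proj A '' S, hSf.image _, ?_⟩, ?_⟩
  · rw [hPS]
    refine proj_image_convexHull A hA S fun x hx => hpos x ?_
    rw [hPS]
    exact subset_convexHull _ _ hx
  · have hopen : IsOpen {y : E d | 0 < (A⁻¹ *ᵥ hom y) 0} :=
      isOpen_lt continuous_const (continuous_mulVec_hom A⁻¹ 0)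
    have hopen2 : IsOpen ({y : E d | 0 < (A⁻¹ *ᵥ hom y) 0} ∩ proj A⁻¹ ⁻¹' (interior P)) :=
      (continuousOn_proj A⁻¹).isOpen_inter_preimage hopen isOpen_interior
    have hx0P : x0 ∈ P := interior_subset hx0
    refine ⟨proj A x0, mem_interior.2 ⟨_, ?_, hopen2, ?_⟩⟩
    · rintro y ⟨hy, hyP⟩
      exact ⟨proj A⁻¹ y, interior_subset hyP, proj_proj A⁻¹ A hAB y (ne_of_gt hy)⟩
    · refine ⟨pos_image A A⁻¹ hBA P hpos _ ⟨x0, hx0P, rfl⟩, ?_⟩
      rw [mem_preimage, proj_proj A A⁻¹ hBA x0 (hpos x0 hx0P).ne']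
      exact hx0

theorem proj_combEquiv {d : ℕ} (A : Matrix (Fin (d + 1)) (Fin (d + 1)) ℝ) (hA : IsUnit A.det)
    (P : Set (E d)) (hP : IsPolytope P) (hpos : ∀ x ∈ P, 0 < (A *ᵥ hom x) 0) :
    CombEquiv P (proj A '' P) := by
  have hBA : A⁻¹ * A = 1 := Matrix.nonsing_inv_mul A hA
  have hAB : A * A⁻¹ = 1 := Matrix.mul_nonsing_inv A hA
  have hposQ := pos_image A A⁻¹ hBA P hpos
  have hQP : proj A⁻¹ '' (proj A '' P) = P := image_image A A⁻¹ hBA P hpos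
  have hsub : ∀ F : Faces P, F.1 ⊆ P := fun F => IsExposed.subset F.2
  have hsub' : ∀ F : Faces (proj A '' P), F.1 ⊆ proj A '' P := fun F => IsExposed.subset F.2
  refine ⟨{
    toFun := fun F => ⟨proj A '' F.1, isExposed_image A A⁻¹ hBA P hpos F.1 F.2⟩
    invFun := fun F => ⟨proj A⁻¹ '' F.1, by
      have h := isExposed_image A⁻¹ A hAB (proj A '' P) hposQ F.1 F.2
      rw [hQP] at h
      exact h⟩
    left_inv := fun F => Subtype.ext
      (image_image A A⁻¹ hBA F.1 fun x hx => hpos x (hsub F hx))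
    right_inv := fun F => Subtype.ext
      (image_image A⁻¹ A hAB F.1 fun x hx => hposQ x (hsub' F hx))
    map_rel_iff' := ?_ }⟩
  intro F G
  show proj A '' F.1 ⊆ proj A '' G.1 ↔ F.1 ⊆ G.1
  constructor
  · intro h
    have := image_mono (f := proj A⁻¹) h
    rwa [image_image A A⁻¹ hBA F.1 fun x hx => hpos x (hsub F hx),
      image_image A A⁻¹ hBA G.1 fun x hx => hpos x (hsub G hx)] at this
  · exact fun h => image_mono h

theorem proj_vertices_subset {d : ℕ} (A : Matrix (Fin (d + 1)) (Fin (d + 1)) ℝ) (hA : IsUnit A.det)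
    (P : Set (E d)) (hP : IsPolytope P) (hpos : ∀ x ∈ P, 0 < (A *ᵥ hom x) 0) :
    vertices (proj A '' P) ⊆ proj A '' vertices P := by
  have hBA : A⁻¹ * A = 1 := Matrix.nonsing_inv_mul A hA
  intro y hy
  rw [vertices, mem_extremePoints] at hy
  obtain ⟨⟨x, hx, rfl⟩, hext⟩ := hy
  refine ⟨x, ?_, rfl⟩
  rw [vertices, mem_extremePoints]
  refine ⟨hx, fun x1 hx1 x2 hx2 hseg => ?_⟩
  obtain ⟨a, b, ha, hb, hab, hxx⟩ := hseg
  have hinj : ∀ u ∈ P, ∀ v ∈ P, proj A u = proj A v → u = v := by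
    intro u hu v hv huv
    rw [← proj_proj A A⁻¹ hBA u (hpos u hu).ne', huv, proj_proj A A⁻¹ hBA v (hpos v hv).ne']
  obtain ⟨-, h2⟩ := proj_combo A x1 x2 (hpos x1 hx1) (hpos x2 hx2) ha.le hb.le hab
  have h1' := mul_pos ha (hpos x1 hx1)
  have h2' := mul_pos hb (hpos x2 hx2)
  have h3' := add_pos h1' h2'
  have hseg' : proj A x ∈ openSegment ℝ (proj A x1) (proj A x2) := by
    refine ⟨_, _, div_pos h1' h3', div_pos h2' h3', ?_, ?_⟩
    · field_simp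
    · rw [← hxx, h2]
  obtain ⟨e1, e2⟩ := hext _ ⟨x1, hx1, rfl⟩ _ ⟨x2, hx2, rfl⟩ hseg'
  exact ⟨hinj x1 hx1 x hx e1, hinj x2 hx2 x hx e2⟩

end MPd0c340
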