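import Mathlib
import Pool.Agent.MP_d0c340_co.Defs

/-!
# Lorentz normal form

`M` symmetric on `ℝ^(d+1)`, positive definite on `w^⊥`, with two non-proportional null vectors `x0, x1`,
`w ⬝ᵥ x0, w ⬝ᵥ x1 > 0`.
Then there is an invertible matrix `A` whose zeroth row is a positive multiple of `w` with
`x ⬝ᵥ M *ᵥ x = -(A x)_0² + ∑_j (A x)_{j+1}²`.
-/

open Set Matrix

namespace MPd0c340

namespace SylAux

variable {n : Type} [Fintype n]

lemma symm_dot {M : Matrix n n ℝ} (hM : M.IsSymm) (x y : n → ℝ) :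
    x ⬝ᵥ M *ᵥ y = y ⬝ᵥ M *ᵥ x := by
  rw [dotProduct_mulVec, ← mulVec_transpose, hM.eq, dotProduct_comm]

lemma expand {M : Matrix n n ℝ} (hM : M.IsSymm) (x y : n → ℝ) (s t : ℝ) :
    (s • x + t • y) ⬝ᵥ M *ᵥ (s • x + t • y) =
      s ^ 2 * (x ⬝ᵥ M *ᵥ x) + 2 * s * t * (x ⬝ᵥ M *ᵥ y) + t ^ 2 * (y ⬝ᵥ M *ᵥ y) := by
  simp only [mulVec_add, mulVec_smul, dotProduct_add, add_dotProduct, smul_dotProduct,
    dotProduct_smul, smul_eq_mul]
  rw [symm_dot hM y x]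
  ring

open scoped MatrixOrder in
lemma factor [DecidableEq n] {N : Matrix n n ℝ} (hN : N.PosDef) : ∃ B : Matrix n n ℝ, N = Bᵀ * B := by
  have h := hN.posSemidef.nonneg
  obtain ⟨B, hB⟩ := CStarAlgebra.nonneg_iff_eq_star_mul_self.mp h
  refine ⟨B, ?_⟩
  rw [hB, star_eq_conjTranspose]
  congr 1

lemma expand_sub {M : Matrix n n ℝ} (hM : M.IsSymm) (x y : n → ℝ) (t : ℝ) :
    (x - t • y) ⬝ᵥ M *ᵥ (x - t • y) =
      (x ⬝ᵥ M *ᵥ x) - 2 * t * (x ⬝ᵥ M *ᵥ y) + t ^ 2 * (y ⬝ᵥ M *ᵥ y) := by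
  have := expand hM x y 1 (-t)
  rw [one_smul, neg_smul, ← sub_eq_add_neg] at this
  rw [this]
  ring

end SylAux

open SylAux

theorem lorentz_normal_form {d : ℕ} (M : Matrix (Fin (d + 1)) (Fin (d + 1)) ℝ) (hM : M.IsSymm)
    (w : Fin (d + 1) → ℝ) (hpos : ∀ u, u ≠ 0 → w ⬝ᵥ u = 0 → 0 < u ⬝ᵥ M *ᵥ u)
    (x0 x1 : Fin (d + 1) → ℝ) (h0 : 0 < w ⬝ᵥ x0) (h1 : 0 < w ⬝ᵥ x1)
    (hn0 : x0 ⬝ᵥ M *ᵥ x0 = 0) (hn1 : x1 ⬝ᵥ M *ᵥ x1 = 0) (hne : ∀ t : ℝ, x1 ≠ t • x0) :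
    ∃ A : Matrix (Fin (d + 1)) (Fin (d + 1)) ℝ, IsUnit A.det ∧
      (∃ R : ℝ, 0 < R ∧ ∀ x, (A *ᵥ x) 0 = R * (w ⬝ᵥ x)) ∧
      ∀ x, x ⬝ᵥ M *ᵥ x = - (A *ᵥ x) 0 ^ 2 + ∑ j : Fin d, (A *ᵥ x) j.succ ^ 2 := by
  have hpos' : ∀ u, w ⬝ᵥ u = 0 → 0 ≤ u ⬝ᵥ M *ᵥ u := by
    intro u hu
    by_cases h : u = 0
    · rw [h]; simp
    · exact (hpos u h hu).le
  -- `M` is invertible
  have hdet : M.det ≠ 0 := by
    intro hd
    obtain ⟨x, hx, hMx⟩ := Matrix.exists_mulVec_eq_zero_iff.2 hd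
    have hwx : w ⬝ᵥ x ≠ 0 := by
      intro h
      have := hpos x hx h
      rw [hMx] at this
      simp at this
    have key : ∀ y : Fin (d + 1) → ℝ, y ⬝ᵥ M *ᵥ y = 0 → y = ((w ⬝ᵥ y) / (w ⬝ᵥ x)) • x := by
      intro y hy
      by_contra hcon
      have h2 : y - ((w ⬝ᵥ y) / (w ⬝ᵥ x)) • x ≠ 0 := sub_ne_zero.2 hcon
      have h3 : w ⬝ᵥ (y - ((w ⬝ᵥ y) / (w ⬝ᵥ x)) • x) = 0 := by
        rw [dotProduct_sub, dotProduct_smul, smul_eq_mul]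
        field_simp
        ring
      have h4 := hpos _ h2 h3
      rw [expand_sub hM, hy, hMx] at h4
      simp at h4
    have e0 := key x0 hn0
    have e1 := key x1 hn1
    apply hne (((w ⬝ᵥ x1) / (w ⬝ᵥ x)) / ((w ⬝ᵥ x0) / (w ⬝ᵥ x)))
    have hs : (w ⬝ᵥ x0) / (w ⬝ᵥ x) ≠ 0 := div_ne_zero h0.ne' hwx
    set s0 := (w ⬝ᵥ x0) / (w ⬝ᵥ x) with hs0
    set s1 := (w ⬝ᵥ x1) / (w ⬝ᵥ x) with hs1
    have : x = s0⁻¹ • x0 := by
      rw [e0, smul_smul, inv_mul_cancel₀ hs, one_smul]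
    calc x1 = s1 • x := e1
      _ = (s1 / s0) • x0 := by
        conv_lhs => rw [this]
        rw [smul_smul]
        rfl
  have hw0 : w ≠ 0 := by
    rintro rfl
    simp at h0
  have hMu : IsUnit M.det := isUnit_iff_ne_zero.2 hdet
  -- the vector `c`
  obtain ⟨c, q, hwc, hMc, hq0⟩ : ∃ (c : Fin (d + 1) → ℝ) (q : ℝ), w ⬝ᵥ c = 1 ∧ M *ᵥ c = q • w ∧
      q ≠ 0 := by
    have hc' : M *ᵥ (M⁻¹ *ᵥ w) = w := by
      rw [mulVec_mulVec, mul_nonsing_inv M hMu, one_mulVec]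
    have hc0 : M⁻¹ *ᵥ w ≠ 0 := by
      intro h
      rw [h, mulVec_zero] at hc'
      exact hw0 hc'.symm
    have hs : w ⬝ᵥ (M⁻¹ *ᵥ w) ≠ 0 := by
      intro h
      have := hpos _ hc0 h
      rw [hc', dotProduct_comm] at this
      linarith
    refine ⟨(w ⬝ᵥ (M⁻¹ *ᵥ w))⁻¹ • (M⁻¹ *ᵥ w), (w ⬝ᵥ (M⁻¹ *ᵥ w))⁻¹, ?_, ?_, inv_ne_zero hs⟩
    · rw [dotProduct_smul, smul_eq_mul, inv_mul_cancel₀ hs]
    · rw [mulVec_smul, hc']
  have hcc : c ⬝ᵥ M *ᵥ c = q := by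
    rw [hMc, dotProduct_smul, dotProduct_comm, hwc, smul_eq_mul, mul_one]
  have hxc : ∀ x, x ⬝ᵥ M *ᵥ c = q * (w ⬝ᵥ x) := by
    intro x
    rw [hMc, dotProduct_smul, dotProduct_comm, smul_eq_mul]
  have hdec : ∀ x, x ⬝ᵥ M *ᵥ x = q * (w ⬝ᵥ x) ^ 2 +
      (x - (w ⬝ᵥ x) • c) ⬝ᵥ M *ᵥ (x - (w ⬝ᵥ x) • c) := by
    intro x
    rw [expand_sub hM, hxc, hcc]
    ring
  have hwu : ∀ x, w ⬝ᵥ (x - (w ⬝ᵥ x) • c) = 0 := by
    intro x
    rw [dotProduct_sub, dotProduct_smul, hwc, smul_eq_mul, mul_one, sub_self]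
  have hq : q < 0 := by
    have h2 := hdec x0
    rw [hn0] at h2
    have h3 := hpos' _ (hwu x0)
    have h4 : 0 < (w ⬝ᵥ x0) ^ 2 := by positivity
    by_contra hcon
    push Not at hcon
    have : 0 < q := lt_of_le_of_ne hcon (Ne.symm hq0)
    nlinarith [mul_pos this h4]
  -- the positive definite matrix
  obtain ⟨N, hN⟩ : ∃ N, N = M + (1 - q) • vecMulVec w w := ⟨_, rfl⟩
  have hvv : ∀ x, vecMulVec w w *ᵥ x = (w ⬝ᵥ x) • w := by
    intro x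
    ext i
    simp only [mulVec, dotProduct, vecMulVec_apply, Pi.smul_apply, smul_eq_mul]
    rw [Finset.sum_mul]
    exact Finset.sum_congr rfl fun j _ => by ring
  have hNxy : ∀ x y, x ⬝ᵥ N *ᵥ y = x ⬝ᵥ M *ᵥ y + (1 - q) * ((w ⬝ᵥ x) * (w ⬝ᵥ y)) := by
    intro x y
    rw [hN, add_mulVec, dotProduct_add, smul_mulVec, hvv, dotProduct_smul, dotProduct_smul,
      dotProduct_comm x w]
    simp only [smul_eq_mul]
    ring
  have hNsymm : N.IsSymm := by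
    rw [hN]
    refine IsSymm.add hM ?_
    ext i j
    simp [vecMulVec_apply, mul_comm]
  have hNpos : N.PosDef := by
    refine PosDef.of_dotProduct_mulVec_pos ?_ ?_
    · have : Nᴴ = Nᵀ := by ext i j; simp
      rw [IsHermitian, this]
      exact hNsymm
    · intro x hx
      have e : star x = x := by ext i; simp
      rw [e, hNxy, hdec]
      by_cases hwx : w ⬝ᵥ x = 0
      · rw [hwx]
        simp only [zero_smul, sub_zero]
        have := hpos x hx hwx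
        linarith
      · have h2 := hpos' _ (hwu x)
        have h3 : 0 < (w ⬝ᵥ x) ^ 2 := by positivity
        nlinarith
  obtain ⟨B, hB⟩ := factor hNpos
  have hBB : ∀ x y, (B *ᵥ x) ⬝ᵥ (B *ᵥ y) = x ⬝ᵥ N *ᵥ y := by
    intro x y
    rw [hB, ← mulVec_mulVec, dotProduct_mulVec x Bᵀ, vecMul_transpose]
  have hBc : ∀ x, (B *ᵥ c) ⬝ᵥ (B *ᵥ x) = w ⬝ᵥ x := by
    intro x
    rw [hBB, hNxy, symm_dot hM, hxc, hwc]
    ring
  -- the orthonormal basis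
  let b : EuclideanSpace ℝ (Fin (d + 1)) := WithLp.toLp 2 (B *ᵥ c)
  have hinner : ∀ u v : Fin (d + 1) → ℝ, inner ℝ (WithLp.toLp 2 u : EuclideanSpace ℝ (Fin (d + 1)))
      (WithLp.toLp 2 v) = u ⬝ᵥ v := by
    intro u v
    rw [EuclideanSpace.inner_toLp_toLp]
    simp [dotProduct_comm]
  have hb1 : inner ℝ b b = (1 : ℝ) := by
    rw [hinner, hBc, hwc]
  have hbn : ‖b‖ = 1 := by
    have := real_inner_self_eq_norm_sq b
    rw [hb1] at this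
    nlinarith [norm_nonneg b]
  obtain ⟨e, he⟩ : ∃ e : OrthonormalBasis (Fin (d + 1)) ℝ (EuclideanSpace ℝ (Fin (d + 1))),
      e 0 = b := by
    obtain ⟨e, he⟩ := Orthonormal.exists_orthonormalBasis_extension_of_card_eq
      (𝕜 := ℝ) (E := EuclideanSpace ℝ (Fin (d + 1))) (ι := Fin (d + 1)) (by simp)
      (v := fun _ => b) (s := {0}) (by
        constructor
        · intro i
          simpa using hbn
        · intro i j hij
          exact absurd (Subsingleton.elim i j) hij)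
    exact ⟨e, he 0 rfl⟩
  obtain ⟨R, hR0, hR⟩ : ∃ R : ℝ, 0 < R ∧ R ^ 2 = -q :=
    ⟨Real.sqrt (-q), Real.sqrt_pos.2 (by linarith), Real.sq_sqrt (by linarith)⟩
  let r : Fin (d + 1) → ℝ := fun i => if i = 0 then R else 1
  have hr0 : ∀ i, r i ≠ 0 := by
    intro i
    simp only [r]
    split_ifs
    · exact hR0.ne'
    · exact one_ne_zero
  let A : Matrix (Fin (d + 1)) (Fin (d + 1)) ℝ :=
    Matrix.of fun i k => r i * ∑ j, e i j * B j k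
  have hA : ∀ x i, (A *ᵥ x) i = r i * inner ℝ (e i) (WithLp.toLp 2 (B *ᵥ x)) := by
    intro x i
    have e1 : inner ℝ (e i) (WithLp.toLp 2 (B *ᵥ x)) = (WithLp.ofLp (e i)) ⬝ᵥ (B *ᵥ x) := by
      rw [← hinner]
    rw [e1, dotProduct_mulVec]
    simp only [A, mulVec, dotProduct, of_apply, vecMul]
    rw [Finset.mul_sum]
    exact Finset.sum_congr rfl fun k _ => by ring
  have hA0 : ∀ x, inner ℝ (e 0) (WithLp.toLp 2 (B *ᵥ x)) = w ⬝ᵥ x := by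
    intro x
    rw [he, hinner, hBc]
  have hsum : ∀ x, x ⬝ᵥ N *ᵥ x = ∑ i, (inner ℝ (e i) (WithLp.toLp 2 (B *ᵥ x))) ^ 2 := by
    intro x
    have h2 := e.sum_sq_norm_inner_right (WithLp.toLp 2 (B *ᵥ x))
    rw [← real_inner_self_eq_norm_sq, hinner, hBB] at h2
    rw [← h2]
    exact Finset.sum_congr rfl fun i _ => by rw [Real.norm_eq_abs, sq_abs]
  refine ⟨A, ?_, ⟨R, hR0, ?_⟩, ?_⟩
  · rw [isUnit_iff_ne_zero]
    intro hd
    obtain ⟨x, hx, hAx⟩ := Matrix.exists_mulVec_eq_zero_iff.2 hd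
    have h2 : ∀ i, inner ℝ (e i) (WithLp.toLp 2 (B *ᵥ x)) = (0 : ℝ) := by
      intro i
      have := hA x i
      rw [hAx] at this
      simp only [Pi.zero_apply] at this
      exact (mul_eq_zero.1 this.symm).resolve_left (hr0 i)
    have h3 := hsum x
    simp only [h2] at h3
    have h4 := hNpos.dotProduct_mulVec_pos hx
    have e1 : star x = x := by ext i; simp
    rw [e1, h3] at h4
    simp at h4
  · intro x
    rw [hA, hA0]
    simp [r]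
  · intro x
    have h2 := hsum x
    rw [hNxy, Fin.sum_univ_succ, hA0] at h2
    have h3 : ∀ j : Fin d, (A *ᵥ x) j.succ = inner ℝ (e j.succ) (WithLp.toLp 2 (B *ᵥ x)) := by
      intro j
      rw [hA]
      simp [r, Fin.succ_ne_zero]
    have h4 : (A *ᵥ x) 0 = R * (w ⬝ᵥ x) := by
      rw [hA, hA0]
      simp [r]
    simp only [h3, h4, mul_pow, hR]
    linarith

end MPd0c340
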