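import Mathlib
import Pool.Agent.MP_d0c340_co.Defs
import Pool.Agent.MP_d0c340_co.Chart
import Pool.Agent.MP_d0c340_co.Farkas
import Pool.Agent.MP_d0c340_co.Sylvester
import Pool.Agent.MP_d0c340_co.Projective
import Pool.Agent.MP_d0c340_co.PolyData

open Set Matrix

namespace MPd0c340

lemma hom_zero {d : ℕ} (x : E d) : hom x 0 = 1 := rfl

lemma hom_succ {d : ℕ} (x : E d) (i : Fin d) : hom x i.succ = x i := rfl

lemma hom_injective {d : ℕ} {x y : E d} (h : hom x = hom y) : x = y := by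
  ext i
  have := congrFun h i.succ
  simpa [hom_succ] using this

lemma hom_convex {d : ℕ} (x y : E d) (a b : ℝ) (hab : a + b = 1) :
    hom (a • x + b • y) = a • hom x + b • hom y := by
  funext i
  refine Fin.cases ?_ (fun j => ?_) i
  · simp [hom_zero, hab]
  · simp [hom_succ]

lemma convex_pos_hom {d : ℕ} (w : Fin (d + 1) → ℝ) : Convex ℝ {x : E d | 0 < w ⬝ᵥ hom x} := by
  intro x hx y hy a b ha hb hab
  simp only [mem_ofPred_eq] at hx hy ⊢
  rw [hom_convex x y a b hab, dotProduct_add, dotProduct_smul, dotProduct_smul, smul_eq_mul,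
    smul_eq_mul]
  rcases ha.lt_or_eq with h | h
  · have := mul_pos h hx
    have := mul_nonneg hb hy.le
    linarith
  · have hb1 : b = 1 := by linarith
    rw [← h, hb1]; linarith

theorem main {d k : ℕ} (hk : 1 ≤ k) (hkd : k ≤ d) (P : Set (E d)) (hP : IsPolytope P)
    (hN : KNeighborly k P) (hn : (vertices P).ncard ≤ d + 2 * k + 1) :
    ∃ A : Matrix (Fin (d + 1)) (Fin (d + 1)) ℝ, IsUnit A.det ∧ (∀ x ∈ P, 0 < (A *ᵥ hom x) 0) ∧
      IsPolytope (proj A '' P) ∧ CombEquiv P (proj A '' P) ∧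
      ∀ x ∈ vertices (proj A '' P), dist x 0 = 1 := by
  classical
  have hfin := vertices_finite P hP
  have hcard := card_vertices P hP
  obtain ⟨e⟩ : Nonempty (Fin (vertices P).ncard ≃ vertices P) := by
    have : Finite (vertices P) := hfin
    exact ⟨(Finite.equivFinOfCardEq (Nat.card_coe_set_eq _)).symm⟩
  set N := (vertices P).ncard with hNdef
  let v : Fin N → Fin (d + 1) → ℝ := fun i => hom (e i : E d)
  have hspan : ∀ u : Fin (d + 1) → ℝ, (∀ i, u ⬝ᵥ v i = 0) → u = 0 := by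
    intro u hu
    refine span_vertices P hP u fun x hx => ?_
    have := hu (e.symm ⟨x, hx⟩)
    simpa [v] using this
  have hw0 : ∀ i, 0 < (Pi.single 0 1 : Fin (d + 1) → ℝ) ⬝ᵥ v i := by
    intro i
    rw [single_dotProduct, one_mul]
    exact one_pos
  have hface : ∀ K : Finset (Fin N), K.card = k → ∃ b : Fin (d + 1) → ℝ, (∀ i ∈ K, b ⬝ᵥ v i = 0) ∧
      ∀ i ∉ K, 0 < b ⬝ᵥ v i := by
    intro K hK
    have hinj : Function.Injective fun i : Fin N => (e i : E d) :=
      Subtype.coe_injective.comp e.injective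
    obtain ⟨b, hb1, hb2⟩ := face_functional P hP k hk hN ((fun i : Fin N => (e i : E d)) '' (K : Set (Fin N)))
      (by rintro _ ⟨i, _, rfl⟩; exact (e i).2)
      (by rw [Set.ncard_image_of_injective _ hinj, Set.ncard_coe_finset, hK])
    refine ⟨b, fun i hi => hb1 _ ⟨i, hi, rfl⟩, fun i hi => hb2 _ (e i).2 ?_⟩
    rintro ⟨j, hj, hji⟩
    exact hi (hinj hji ▸ hj)
  obtain ⟨w, hw, hno⟩ := exists_good_chart v hspan (Pi.single 0 1) hw0 k hk
    (by rw [Fintype.card_fin]; omega) hface (by rw [Fintype.card_fin]; omega)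
  obtain ⟨M, hM, hMv, hMpos⟩ := farkas v w hw hno
  have hN2 : 2 ≤ N := by omega
  let i0 : Fin N := ⟨0, by omega⟩
  let i1 : Fin N := ⟨1, by omega⟩
  obtain ⟨A, hA, ⟨R, hR, hRw⟩, hAM⟩ := lorentz_normal_form M hM w hMpos (v i0) (v i1) (hw i0) (hw i1)
    (hMv i0) (hMv i1) (by
      intro t ht
      have h0 := congrFun ht 0
      rw [Pi.smul_apply, smul_eq_mul] at h0
      have h1 : v i1 0 = 1 := rfl
      have h2 : v i0 0 = 1 := rfl
      rw [h1, h2, mul_one] at h0
      rw [← h0, one_smul] at ht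
      have h3 := hom_injective ht
      have h4 := e.injective (Subtype.coe_injective h3)
      have := congrArg Fin.val h4
      simp [i0, i1] at this)
  have hpos : ∀ x ∈ P, 0 < (A *ᵥ hom x) 0 := by
    intro x hx
    rw [hRw]
    have hsub : convexHull ℝ (vertices P) ⊆ {x : E d | 0 < w ⬝ᵥ hom x} := by
      refine convexHull_min (fun y hy => ?_) (convex_pos_hom w)
      have := hw (e.symm ⟨y, hy⟩)
      simpa [v] using this
    rw [convexHull_vertices P hP] at hsub
    exact mul_pos hR (hsub hx)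
  refine ⟨A, hA, hpos, proj_isPolytope A hA P hP hpos, proj_combEquiv A hA P hP hpos, ?_⟩
  intro y hy
  obtain ⟨x, hx, rfl⟩ := proj_vertices_subset A hA P hP hpos hy
  have hxP : x ∈ P := extremePoints_subset hx
  have h0 := hpos x hxP
  have hq : hom x ⬝ᵥ M *ᵥ hom x = 0 := by
    have := hMv (e.symm ⟨x, hx⟩)
    simpa [v] using this
  rw [hAM] at hq
  rw [dist_zero_right, EuclideanSpace.norm_eq]
  have hsum : ∑ i : Fin d, ‖proj A x i‖ ^ 2 = 1 := by
    have : ∀ i : Fin d, ‖proj A x i‖ ^ 2 = (A *ᵥ hom x) i.succ ^ 2 / (A *ᵥ hom x) 0 ^ 2 := by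
      intro i
      rw [Real.norm_eq_abs, sq_abs, ← div_pow]
      rfl
    simp_rw [this]
    rw [← Finset.sum_div, div_eq_one_iff_eq (by positivity)]
    linarith
  rw [hsum, Real.sqrt_one]

end MPd0c340
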